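import Mathlib
import Pool.Agent.Helper24_Reg.Mats

/-!
# The case `m = 4`: the anti-automorphism `tau` of the matrix ring

`tau N = -N`, `tau E = E` for odd `k`.
-/

namespace Pool.Agent.Helper24Reg4

open Finset Matrix Pool.Agent.Helper24Reg

/-- reversal of the first `k` indices -/
def rv {n k : ℕ} (hk : k ≤ n) (i : Fin n) : Fin n :=
  if _h : i.val < k then ⟨k - 1 - i.val, by omega⟩ else i

theorem rv_lt {n k : ℕ} (hk : k ≤ n) (i : Fin n) (h : i.val < k) : (rv hk i).val = k - 1 - i.val := by
  rw [rv, dif_pos h]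

theorem rv_ge {n k : ℕ} (hk : k ≤ n) (i : Fin n) (h : ¬ i.val < k) : rv hk i = i := by
  rw [rv, dif_neg h]

theorem rv_rv {n k : ℕ} (hk : k ≤ n) (i : Fin n) : rv hk (rv hk i) = i := by
  by_cases h : i.val < k
  · apply Fin.ext
    rw [rv_lt hk _ (by rw [rv_lt hk i h]; omega), rv_lt hk i h]
    omega
  · rw [rv_ge hk i h, rv_ge hk i h]

/-- the reversal as a permutation -/
def rvE {n k : ℕ} (hk : k ≤ n) : Equiv.Perm (Fin n) := ⟨rv hk, rv hk, rv_rv hk, rv_rv hk⟩

/-- the signs -/
def sgn (k i : ℕ) : ℤ := if i < k then (-1) ^ i else 1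

theorem sgn_mul_self (k i : ℕ) : sgn k i * sgn k i = 1 := by
  unfold sgn
  split_ifs
  · rw [← mul_pow]; simp
  · norm_num

section
variable {R : Type*} [CommRing R] {n k : ℕ} (hk : k ≤ n)

/-- `tau` -/
def tau (M : Matrix (Fin n) (Fin n) R) : Matrix (Fin n) (Fin n) R :=
  fun i j => ((sgn k i.val : ℤ) : R) * ((sgn k j.val : ℤ) : R) * M (rv hk j) (rv hk i)

theorem sgnR_mul_self (i : ℕ) : ((sgn k i : ℤ) : R) * ((sgn k i : ℤ) : R) = 1 := by
  rw [← Int.cast_mul, sgn_mul_self, Int.cast_one]

theorem tau_add (M N : Matrix (Fin n) (Fin n) R) : tau hk (M + N) = tau hk M + tau hk N := by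
  ext i j
  simp only [tau, Matrix.add_apply]
  ring

theorem tau_sub (M N : Matrix (Fin n) (Fin n) R) : tau hk (M - N) = tau hk M - tau hk N := by
  ext i j
  simp only [tau, Matrix.sub_apply]
  ring

theorem tau_neg (M : Matrix (Fin n) (Fin n) R) : tau hk (-M) = -tau hk M := by
  ext i j
  simp only [tau, Matrix.neg_apply]
  ring

theorem tau_smul (c : R) (M : Matrix (Fin n) (Fin n) R) : tau hk (c • M) = c • tau hk M := by
  ext i j
  simp only [tau, Matrix.smul_apply, smul_eq_mul]
  ring

theorem tau_zero : tau hk (0 : Matrix (Fin n) (Fin n) R) = 0 := by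
  ext i j
  simp only [tau, Matrix.zero_apply, mul_zero]

theorem tau_one : tau hk (1 : Matrix (Fin n) (Fin n) R) = 1 := by
  ext i j
  simp only [tau]
  by_cases h : i = j
  · subst h
    rw [Matrix.one_apply_eq, Matrix.one_apply_eq, mul_one, sgnR_mul_self]
  · rw [Matrix.one_apply_ne h, Matrix.one_apply_ne, mul_zero]
    intro h1
    apply h
    rw [← rv_rv hk i, ← rv_rv hk j, h1]

theorem tau_mul (M N : Matrix (Fin n) (Fin n) R) : tau hk (M * N) = tau hk N * tau hk M := by
  ext i j
  simp only [tau, Matrix.mul_apply]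
  rw [Finset.mul_sum, ← Equiv.sum_comp (rvE hk)]
  refine Finset.sum_congr rfl fun l _ => ?_
  change _ * (M (rv hk j) (rv hk l) * N (rv hk l) (rv hk i)) = _
  have h := sgnR_mul_self (R := R) (k := k) l.val
  linear_combination (-((sgn k i.val : ℤ) : R) * ((sgn k j.val : ℤ) : R) *
    M (rv hk j) (rv hk l) * N (rv hk l) (rv hk i)) * h

theorem tau_pow (M : Matrix (Fin n) (Fin n) R) (m : ℕ) : tau hk (M ^ m) = tau hk M ^ m := by
  induction m with
  | zero => rw [pow_zero, pow_zero, tau_one]
  | succ m ih => rw [pow_succ, tau_mul, ih, pow_succ']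

theorem tau_map {S : Type*} [CommRing S] (f : R →+* S) (M : Matrix (Fin n) (Fin n) R) :
    f.mapMatrix (tau hk M) = tau hk (f.mapMatrix M) := by
  ext i j
  simp only [tau, RingHom.mapMatrix_apply, Matrix.map_apply, map_mul, map_intCast]

theorem tau_NN (hk : k ≤ n) : tau hk (NN R n k) = -NN R n k := by
  ext i j
  simp only [tau, NN, Matrix.neg_apply]
  by_cases h : j.val = i.val + 1 ∧ j.val < k
  · have hi : i.val < k := by omega
    rw [if_pos h, if_pos]
    · simp only [sgn, if_pos hi, if_pos h.2]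
      rw [h.1, pow_succ]
      push_cast
      have h1 : ((-1 : R) ^ i.val) * ((-1 : R) ^ i.val) = 1 := by rw [← mul_pow]; simp
      linear_combination -h1
    · rw [rv_lt hk i hi, rv_lt hk j h.2]
      omega
  · rw [if_neg h, if_neg, mul_zero, neg_zero]
    rintro ⟨h1, h2⟩
    apply h
    by_cases hi : i.val < k
    · by_cases hj : j.val < k
      · rw [rv_lt hk i hi, rv_lt hk j hj] at h1
        omega
      · rw [rv_lt hk i hi, rv_ge hk j hj] at h1
        omega
    · rw [rv_ge hk i hi] at h2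
      omega

theorem tau_EE (hk : k ≤ n) (hodd : Odd k) : tau hk (EE R n k) = EE R n k := by
  ext i j
  simp only [tau, EE]
  obtain ⟨l, hl⟩ := hodd
  by_cases h : i.val + 1 = k ∧ j.val = 0
  · have hi : i.val < k := by omega
    have hj : j.val < k := by omega
    rw [if_pos h, if_pos]
    · simp only [sgn, if_pos hi, if_pos hj]
      have h2 : i.val = 2 * l := by omega
      rw [h.2, h2, pow_mul]
      simp
    · rw [rv_lt hk i hi, rv_lt hk j hj]
      omega
  · rw [if_neg h, if_neg, mul_zero]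
    rintro ⟨h1, h2⟩
    apply h
    by_cases hj : j.val < k
    · by_cases hi : i.val < k
      · rw [rv_lt hk j hj] at h1
        rw [rv_lt hk i hi] at h2
        omega
      · rw [rv_ge hk i hi] at h2
        omega
    · rw [rv_ge hk j hj] at h1
      omega

end

end Pool.Agent.Helper24Reg4
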