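import Mathlib
import Pool.Agent.Helper24_Reg4.Tau

/-!
# The case `m = 4`: elements `1 + q c + q² d` with `d + tau d = c²` modulo `q`
-/

namespace Pool.Agent.Helper24Reg4

open Finset Matrix Pool.Agent.Helper24Reg

section
variable {R F : Type*} [CommRing R] [CommRing F] (f : R →+* F) (q : R) {n k : ℕ} (hk : k ≤ n)

theorem f_smul (hfq : f q = 0) (M : Matrix (Fin n) (Fin n) R) : f.mapMatrix (q • M) = 0 := by
  ext i j
  simp only [RingHom.mapMatrix_apply, Matrix.map_apply, Matrix.smul_apply, smul_eq_mul, map_mul,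
    hfq, zero_mul, Matrix.zero_apply]

theorem f_smul2 (hfq : f q = 0) (M : Matrix (Fin n) (Fin n) R) : f.mapMatrix (q ^ 2 • M) = 0 := by
  rw [pow_two, mul_smul]
  exact f_smul f q hfq _

/-- `g = 1 + q c + q² d` with `d + tau d = c²` modulo `q` -/
def CT (c g : Matrix (Fin n) (Fin n) R) : Prop :=
  ∃ d : Matrix (Fin n) (Fin n) R, g = 1 + q • c + q ^ 2 • d ∧
    f.mapMatrix d + tau hk (f.mapMatrix d) = f.mapMatrix c * f.mapMatrix c

variable {f q hk}

theorem CT.map_eq_one (hfq : f q = 0) {c g : Matrix (Fin n) (Fin n) R} (h : CT f q hk c g) :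
    f.mapMatrix g = 1 := by
  obtain ⟨d, rfl, -⟩ := h
  rw [map_add, map_add, map_one, f_smul f q hfq, f_smul2 f q hfq, add_zero, add_zero]

theorem tau_f_of_sym {c : Matrix (Fin n) (Fin n) R} (hc : tau hk c = c) :
    tau hk (f.mapMatrix c) = f.mapMatrix c := by
  rw [← tau_map, hc]

theorem CT.one : CT f q hk (0 : Matrix (Fin n) (Fin n) R) 1 :=
  ⟨0, by rw [smul_zero, smul_zero, add_zero, add_zero], by
    rw [map_zero, tau_zero, add_zero, mul_zero]⟩

theorem CT.mul (hfq : f q = 0) {c c' g g' : Matrix (Fin n) (Fin n) R} (hc : tau hk c = c)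
    (hc' : tau hk c' = c') (h : CT f q hk c g) (h' : CT f q hk c' g') :
    CT f q hk (c + c') (g * g') := by
  obtain ⟨d, rfl, hd⟩ := h
  obtain ⟨d', rfl, hd'⟩ := h'
  refine ⟨d + d' + c * c' + q • (c * d' + d * c') + q ^ 2 • (d * d'), ?_, ?_⟩
  · simp only [add_mul, mul_add, one_mul, mul_one, smul_mul_assoc, mul_smul_comm, smul_smul,
      smul_add]
    module
  · rw [map_add, map_add, f_smul f q hfq, f_smul2 f q hfq, add_zero, add_zero, map_add, map_add,
      map_mul, tau_add, tau_add, tau_mul, tau_f_of_sym hc, tau_f_of_sym hc', map_add, add_mul,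
      mul_add, mul_add, ← hd, ← hd']
    abel

theorem CT.inv (hfq : f q = 0) {c : Matrix (Fin n) (Fin n) R} (hc : tau hk c = c)
    {g : (Matrix (Fin n) (Fin n) R)ˣ} (h : CT f q hk c g.val) : CT f q hk (-c) (g⁻¹).val := by
  have hg1 := h.map_eq_one hfq
  obtain ⟨d, hd1, hd⟩ := h
  have hgi : f.mapMatrix (g⁻¹).val = 1 := by
    have h1 : f.mapMatrix (g.val * (g⁻¹).val) = 1 := by rw [Units.mul_inv, map_one]
    rw [map_mul, hg1, one_mul] at h1
    exact h1
  set gi := (g⁻¹).val with hgidef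
  have h1 : gi + q • (c * gi) + q ^ 2 • (d * gi) = 1 := by
    have h2 : g.val * gi = 1 := by rw [hgidef, Units.mul_inv]
    rw [hd1, add_mul, add_mul, one_mul, smul_mul_assoc, smul_mul_assoc] at h2
    exact h2
  have h2 : c * gi + q • (c * c * gi) + q ^ 2 • (c * d * gi) = c := by
    have h3 := congrArg (fun M => c * M) h1
    simp only [mul_add, mul_smul_comm, mul_one, ← mul_assoc] at h3
    exact h3
  refine ⟨c * c * gi - d * gi + q • (c * d * gi), ?_, ?_⟩
  · have h3 : gi = 1 - q • (c * gi) - q ^ 2 • (d * gi) := by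
      rw [← h1]
      abel
    have h4 : c * gi = c - q • (c * c * gi) - q ^ 2 • (c * d * gi) := by
      rw [eq_sub_iff_add_eq, eq_sub_iff_add_eq, add_right_comm]
      exact h2
    conv_lhs => rw [h3, h4]
    module
  · rw [map_add, f_smul f q hfq, add_zero, map_sub, map_mul, map_mul, map_mul, hgi, mul_one,
      mul_one, tau_sub, tau_mul, tau_f_of_sym hc, map_neg, neg_mul_neg]
    have h3 : tau hk (f.mapMatrix d) = f.mapMatrix c * f.mapMatrix c - f.mapMatrix d := by
      rw [← hd]
      abel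
    rw [h3]
    abel

theorem CT.conj (hfq : f q = 0) {c g : Matrix (Fin n) (Fin n) R}
    {x : (Matrix (Fin n) (Fin n) R)ˣ} (hx : tau hk x.val = (x⁻¹).val)
    (hx' : tau hk (x⁻¹).val = x.val) (h : CT f q hk c g) :
    CT f q hk ((x⁻¹).val * (c * x.val)) ((x⁻¹).val * g * x.val) := by
  obtain ⟨d, rfl, hd⟩ := h
  have hxx : (x⁻¹).val * x.val = 1 := Units.inv_mul x
  have hxx' : x.val * (x⁻¹).val = 1 := Units.mul_inv x
  refine ⟨(x⁻¹).val * (d * x.val), ?_, ?_⟩
  · simp only [add_mul, mul_add, mul_one, smul_mul_assoc, mul_smul_comm, hxx, mul_assoc]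
  · have e1 : tau hk (f.mapMatrix ((x⁻¹).val * (d * x.val))) =
        f.mapMatrix (x⁻¹).val * (tau hk (f.mapMatrix d) * f.mapMatrix x.val) := by
      have e0 : tau hk (f.mapMatrix x.val) = f.mapMatrix (x⁻¹).val := by rw [← tau_map, hx]
      have e0' : tau hk (f.mapMatrix (x⁻¹).val) = f.mapMatrix x.val := by rw [← tau_map, hx']
      rw [map_mul, map_mul, tau_mul, tau_mul, e0, e0', mul_assoc]
    have e2 : f.mapMatrix x.val * f.mapMatrix (x⁻¹).val = 1 := by rw [← map_mul, hxx', map_one]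
    rw [e1, map_mul, map_mul, ← mul_add, ← add_mul, hd, map_mul, map_mul]
    have e3 : f.mapMatrix (x⁻¹).val * (f.mapMatrix c * f.mapMatrix x.val) *
        (f.mapMatrix (x⁻¹).val * (f.mapMatrix c * f.mapMatrix x.val)) =
        f.mapMatrix (x⁻¹).val * (f.mapMatrix c * ((f.mapMatrix x.val * f.mapMatrix (x⁻¹).val) *
          (f.mapMatrix c * f.mapMatrix x.val))) := by
      simp only [mul_assoc]
    rw [e3, e2, one_mul]
    simp only [mul_assoc]

theorem CT.conj' (hfq : f q = 0) {c v g : Matrix (Fin n) (Fin n) R}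
    {y : (Matrix (Fin n) (Fin n) R)ˣ} (hc : tau hk c = c) (hv : tau hk v = v)
    (hy : CT f q hk v y.val) (h : CT f q hk c g) :
    CT f q hk c ((y⁻¹).val * g * y.val) := by
  have hy1 := hy.map_eq_one hfq
  have hy1' : f.mapMatrix (y⁻¹).val = 1 := by
    have h1 : f.mapMatrix ((y⁻¹).val * y.val) = 1 := by rw [Units.inv_mul, map_one]
    rw [map_mul, hy1, mul_one] at h1
    exact h1
  obtain ⟨w, hyw, -⟩ := hy
  obtain ⟨d, rfl, hd⟩ := h
  set yi := (y⁻¹).val with hyi
  have hyy : yi * y.val = 1 := Units.inv_mul y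
  refine ⟨yi * (d * y.val) + yi * ((c * v - v * c) + q • (c * w - w * c)), ?_, ?_⟩
  · have e1 : yi * (c * y.val) = c + q • (yi * ((c * v - v * c) + q • (c * w - w * c))) := by
      have e2 : c * y.val = y.val * c + q • ((c * v - v * c) + q • (c * w - w * c)) := by
        rw [hyw]
        simp only [add_mul, mul_add, one_mul, mul_one, smul_mul_assoc, mul_smul_comm, smul_add,
          smul_sub, smul_smul]
        module
      rw [e2, mul_add, ← mul_assoc, hyy, one_mul, mul_smul_comm]
    have e3 : yi * (1 + q • c + q ^ 2 • d) * y.val =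
        yi * y.val + q • (yi * (c * y.val)) + q ^ 2 • (yi * (d * y.val)) := by
      simp only [add_mul, mul_add, mul_one, smul_mul_assoc, mul_smul_comm, mul_assoc]
    rw [e3, hyy, e1]
    module
  · rw [map_add, map_mul, map_mul, hy1, hy1', one_mul, mul_one, map_mul, hy1', one_mul, map_add,
      f_smul f q hfq, add_zero, map_sub, map_mul, map_mul, tau_add, tau_sub, tau_mul, tau_mul,
      tau_f_of_sym hc, tau_f_of_sym hv, ← hd]
    abel

/-- powers -/
theorem one_add_smul_pow (hq : q ^ 4 = 0) (U : Matrix (Fin n) (Fin n) R) (N : ℕ) :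
    (1 + q • U) ^ N = 1 + ((N : R) * q) • U + ((N.choose 2 : R) * q ^ 2) • (U * U) +
      ((N.choose 3 : R) * q ^ 3) • (U * U * U) := by
  induction N with
  | zero => simp
  | succ N ih =>
    have h2 : (N + 1).choose 2 = N + N.choose 2 := by
      rw [Nat.choose_succ_succ' N 1, Nat.choose_one_right]
    have h3 : (N + 1).choose 3 = N.choose 2 + N.choose 3 := Nat.choose_succ_succ' N 2
    rw [pow_succ, ih, h2, h3]
    push_cast
    rw [mul_add, mul_one, mul_smul_comm]
    have e1 : ((1 : Matrix (Fin n) (Fin n) R) + ((N : R) * q) • U +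
        ((N.choose 2 : R) * q ^ 2) • (U * U) + ((N.choose 3 : R) * q ^ 3) • (U * U * U)) * U =
        U + ((N : R) * q) • (U * U) + ((N.choose 2 : R) * q ^ 2) • (U * U * U) +
          ((N.choose 3 : R) * q ^ 3) • (U * U * U * U) := by
      simp only [add_mul, one_mul, smul_mul_assoc]
    have h4 : q • (((N.choose 3 : R) * q ^ 3) • (U * U * U * U)) = 0 := by
      rw [smul_smul]
      have : (q * ((N.choose 3 : R) * q ^ 3)) = (N.choose 3 : R) * q ^ 4 := by ring
      rw [this, hq, mul_zero, zero_smul]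
    rw [e1, smul_add, h4]
    module

theorem CT.pow_p {p : ℕ} (hp : p.Prime) (hp5 : 5 ≤ p) (hqp : q = (p : R)) (hq : q ^ 4 = 0)
    (hfq : f q = 0) {c g : Matrix (Fin n) (Fin n) R} (hc : tau hk c = c) (h : CT f q hk c g) :
    ∃ e : Matrix (Fin n) (Fin n) R, g ^ p = 1 + q ^ 2 • c + q ^ 3 • e ∧
      f.mapMatrix e + tau hk (f.mapMatrix e) = 0 := by
  obtain ⟨d, rfl, hd⟩ := h
  obtain ⟨r, hr⟩ : ∃ r, p = 2 * r + 1 := by
    rcases hp.eq_two_or_odd' with h2 | h2
    · omega
    · exact h2
  have hch2 : p.choose 2 = p * r := by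
    rw [Nat.choose_two_right, hr]
    rw [show 2 * r + 1 - 1 = 2 * r by omega, show (2 * r + 1) * (2 * r) = ((2 * r + 1) * r) * 2 by ring,
      Nat.mul_div_cancel _ (by norm_num)]
  obtain ⟨t, ht⟩ := hp.dvd_choose_self (k := 3) (by norm_num) (by omega)
  have e1 : (1 + q • c + q ^ 2 • d : Matrix (Fin n) (Fin n) R) = 1 + q • (c + q • d) := by
    rw [smul_add, smul_smul, ← pow_two, ← add_assoc]
  have h2 : ((p.choose 2 : ℕ) : R) = q * (r : R) := by
    rw [hch2, hqp]
    push_cast
    ring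
  have h3 : ((p.choose 3 : ℕ) : R) = q * (t : R) := by
    rw [ht, hqp]
    push_cast
    ring
  refine ⟨d + (r : R) • (c * c), ?_, ?_⟩
  · rw [e1, one_add_smul_pow hq, h2, h3, ← hqp]
    have h5 : q * (t : R) * q ^ 3 = 0 := by
      have : q * (t : R) * q ^ 3 = (t : R) * q ^ 4 := by ring
      rw [this, hq, mul_zero]
    rw [h5, zero_smul, add_zero]
    simp only [add_mul, mul_add, smul_mul_assoc, mul_smul_comm, smul_smul, smul_add]
    have h6 : q * (r : R) * q ^ 2 * q = 0 := by
      have : q * (r : R) * q ^ 2 * q = (r : R) * q ^ 4 := by ring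
      rw [this, hq, mul_zero]
    have h7 : q * (r : R) * q ^ 2 * (q * q) = 0 := by
      rw [← mul_assoc, h6, zero_mul]
    rw [h6, h7, zero_smul, zero_smul, zero_smul]
    module
  · have e2 : f.mapMatrix (d + (r : R) • (c * c)) =
        f.mapMatrix d + (r : F) • (f.mapMatrix c * f.mapMatrix c) := by
      rw [map_add, ← map_mul]
      congr 1
      ext i j
      rw [RingHom.mapMatrix_apply, RingHom.mapMatrix_apply, Matrix.map_apply, Matrix.smul_apply,
        Matrix.smul_apply, Matrix.map_apply, smul_eq_mul, smul_eq_mul, map_mul, map_natCast]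
    rw [e2, tau_add, tau_smul, tau_mul, tau_f_of_sym hc]
    have h5 : f.mapMatrix d + (r : F) • (f.mapMatrix c * f.mapMatrix c) +
        (tau hk (f.mapMatrix d) + (r : F) • (f.mapMatrix c * f.mapMatrix c)) =
        (f.mapMatrix d + tau hk (f.mapMatrix d)) +
          (2 * (r : F)) • (f.mapMatrix c * f.mapMatrix c) := by
      module
    have h6 : (1 + 2 * (r : F)) = 0 := by
      have h7 : f ((p : ℕ) : R) = 0 := by rw [← hqp, hfq]
      rw [map_natCast, hr] at h7
      push_cast at h7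
      rw [add_comm]
      exact h7
    rw [h5, hd]
    have h8 : f.mapMatrix c * f.mapMatrix c + (2 * (r : F)) • (f.mapMatrix c * f.mapMatrix c) =
        (1 + 2 * (r : F)) • (f.mapMatrix c * f.mapMatrix c) := by
      module
    rw [h8, h6, zero_smul]

end

end Pool.Agent.Helper24Reg4
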