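import Mathlib
import Pool.Agent.Helper24_Reg4.Tau

/-!
# The case `m = 4`: matrices over power series, evaluation at `q` with `q ^ 4 = 0`
-/

namespace Pool.Agent.Helper24Reg4

open Finset Matrix Pool.Agent.Helper24Reg

section
variable {R : Type*} [CommRing R] {n : ℕ}

/-- coefficients of a matrix over power series -/
noncomputable def cf (d : ℕ) (M : Matrix (Fin n) (Fin n) (PowerSeries R)) :
    Matrix (Fin n) (Fin n) R := fun i j => PowerSeries.coeff d (M i j)

theorem cf_add (d : ℕ) (M N : Matrix (Fin n) (Fin n) (PowerSeries R)) :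
    cf d (M + N) = cf d M + cf d N := by
  ext i j
  simp only [cf, Matrix.add_apply, map_add]

theorem cf_sub (d : ℕ) (M N : Matrix (Fin n) (Fin n) (PowerSeries R)) :
    cf d (M - N) = cf d M - cf d N := by
  ext i j
  simp only [cf, Matrix.sub_apply, map_sub]

theorem cf_mul (d : ℕ) (M N : Matrix (Fin n) (Fin n) (PowerSeries R)) :
    cf d (M * N) = ∑ a ∈ antidiagonal d, cf a.1 M * cf a.2 N := by
  ext i j
  rw [Matrix.sum_apply]
  simp only [cf, Matrix.mul_apply, map_sum, PowerSeries.coeff_mul]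
  rw [Finset.sum_comm]

theorem cf_one_zero : cf 0 (1 : Matrix (Fin n) (Fin n) (PowerSeries R)) = 1 := by
  ext i j
  simp only [cf, Matrix.one_apply]
  split_ifs <;> simp

theorem cf_one_succ (d : ℕ) : cf (d + 1) (1 : Matrix (Fin n) (Fin n) (PowerSeries R)) = 0 := by
  ext i j
  simp only [cf, Matrix.one_apply, Matrix.zero_apply]
  split_ifs
  · rw [PowerSeries.coeff_one, if_neg (by omega)]
  · simp

theorem cf_mul_zero (M N : Matrix (Fin n) (Fin n) (PowerSeries R)) :
    cf 0 (M * N) = cf 0 M * cf 0 N := by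
  rw [cf_mul]
  simp

theorem cf_mul_one (M N : Matrix (Fin n) (Fin n) (PowerSeries R)) :
    cf 1 (M * N) = cf 0 M * cf 1 N + cf 1 M * cf 0 N := by
  rw [cf_mul, Finset.Nat.sum_antidiagonal_eq_sum_range_succ (fun a b => cf a M * cf b N)]
  simp [Finset.sum_range_succ]

theorem cf_mul_two (M N : Matrix (Fin n) (Fin n) (PowerSeries R)) :
    cf 2 (M * N) = cf 0 M * cf 2 N + cf 1 M * cf 1 N + cf 2 M * cf 0 N := by
  rw [cf_mul, Finset.Nat.sum_antidiagonal_eq_sum_range_succ (fun a b => cf a M * cf b N)]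
  simp [Finset.sum_range_succ]

theorem cf_X_smul_zero (M : Matrix (Fin n) (Fin n) (PowerSeries R)) :
    cf 0 ((PowerSeries.X : PowerSeries R) • M) = 0 := by
  ext i j
  simp only [cf, Matrix.smul_apply, smul_eq_mul, PowerSeries.coeff_zero_X_mul, Matrix.zero_apply]

theorem cf_X_smul_succ (d : ℕ) (M : Matrix (Fin n) (Fin n) (PowerSeries R)) :
    cf (d + 1) ((PowerSeries.X : PowerSeries R) • M) = cf d M := by
  ext i j
  simp only [cf, Matrix.smul_apply, smul_eq_mul, PowerSeries.coeff_succ_X_mul]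

/-- constant matrices -/
noncomputable def cM (M : Matrix (Fin n) (Fin n) R) : Matrix (Fin n) (Fin n) (PowerSeries R) :=
  (PowerSeries.C : R →+* PowerSeries R).mapMatrix M

theorem cf_cM_zero (M : Matrix (Fin n) (Fin n) R) : cf 0 (cM M) = M := by
  ext i j
  simp [cf, cM]

theorem cf_cM_succ (d : ℕ) (M : Matrix (Fin n) (Fin n) R) : cf (d + 1) (cM M) = 0 := by
  ext i j
  simp [cf, cM, PowerSeries.coeff_C]

/-- evaluation at `q`, `q ^ 4 = 0` -/
noncomputable def evq (q : R) (hq : q ^ 4 = 0) : PowerSeries R →+* R where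
  toFun f := PowerSeries.coeff 0 f + q * PowerSeries.coeff 1 f + q ^ 2 * PowerSeries.coeff 2 f +
    q ^ 3 * PowerSeries.coeff 3 f
  map_one' := by
    simp [PowerSeries.coeff_one]
  map_mul' f g := by
    have h0 : PowerSeries.coeff 0 (f * g) = PowerSeries.coeff 0 f * PowerSeries.coeff 0 g := by
      rw [PowerSeries.coeff_mul]
      simp
    have h1 : PowerSeries.coeff 1 (f * g) = PowerSeries.coeff 0 f * PowerSeries.coeff 1 g +
        PowerSeries.coeff 1 f * PowerSeries.coeff 0 g := by
      rw [PowerSeries.coeff_mul, Finset.Nat.sum_antidiagonal_eq_sum_range_succ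
        (fun a b => PowerSeries.coeff a f * PowerSeries.coeff b g)]
      simp [Finset.sum_range_succ]
    have h2 : PowerSeries.coeff 2 (f * g) = PowerSeries.coeff 0 f * PowerSeries.coeff 2 g +
        PowerSeries.coeff 1 f * PowerSeries.coeff 1 g +
        PowerSeries.coeff 2 f * PowerSeries.coeff 0 g := by
      rw [PowerSeries.coeff_mul, Finset.Nat.sum_antidiagonal_eq_sum_range_succ
        (fun a b => PowerSeries.coeff a f * PowerSeries.coeff b g)]
      simp [Finset.sum_range_succ]
    have h3 : PowerSeries.coeff 3 (f * g) = PowerSeries.coeff 0 f * PowerSeries.coeff 3 g +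
        PowerSeries.coeff 1 f * PowerSeries.coeff 2 g +
        PowerSeries.coeff 2 f * PowerSeries.coeff 1 g +
        PowerSeries.coeff 3 f * PowerSeries.coeff 0 g := by
      rw [PowerSeries.coeff_mul, Finset.Nat.sum_antidiagonal_eq_sum_range_succ
        (fun a b => PowerSeries.coeff a f * PowerSeries.coeff b g)]
      simp [Finset.sum_range_succ]
    rw [h0, h1, h2, h3]
    generalize PowerSeries.coeff 0 f = f0
    generalize PowerSeries.coeff 1 f = f1
    generalize PowerSeries.coeff 2 f = f2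
    generalize PowerSeries.coeff 3 f = f3
    generalize PowerSeries.coeff 0 g = g0
    generalize PowerSeries.coeff 1 g = g1
    generalize PowerSeries.coeff 2 g = g2
    generalize PowerSeries.coeff 3 g = g3
    linear_combination (-(f1 * g3) - f2 * g2 - f3 * g1 - q * (f2 * g3 + f3 * g2) -
      q ^ 2 * (f3 * g3)) * hq
  map_zero' := by simp
  map_add' f g := by
    simp only [map_add]
    ring

theorem evq_C (q : R) (hq : q ^ 4 = 0) (a : R) : evq q hq (PowerSeries.C a) = a := by
  change PowerSeries.coeff 0 _ + q * PowerSeries.coeff 1 _ + q ^ 2 * PowerSeries.coeff 2 _ +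
    q ^ 3 * PowerSeries.coeff 3 _ = a
  simp [PowerSeries.coeff_C]

theorem evq_X (q : R) (hq : q ^ 4 = 0) : evq q hq PowerSeries.X = q := by
  change PowerSeries.coeff 0 _ + q * PowerSeries.coeff 1 _ + q ^ 2 * PowerSeries.coeff 2 _ +
    q ^ 3 * PowerSeries.coeff 3 _ = q
  simp [PowerSeries.coeff_X]

/-- evaluation of matrices -/
noncomputable def evM (q : R) (hq : q ^ 4 = 0) :
    Matrix (Fin n) (Fin n) (PowerSeries R) →+* Matrix (Fin n) (Fin n) R := (evq q hq).mapMatrix

theorem evM_eq (q : R) (hq : q ^ 4 = 0) (M : Matrix (Fin n) (Fin n) (PowerSeries R)) :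
    evM q hq M = cf 0 M + q • cf 1 M + q ^ 2 • cf 2 M + q ^ 3 • cf 3 M := by
  ext i j
  rfl

theorem evM_cM (q : R) (hq : q ^ 4 = 0) (M : Matrix (Fin n) (Fin n) R) :
    evM q hq (cM M) = M := by
  ext i j
  exact evq_C q hq (M i j)

/-- the constant coefficient as a ring homomorphism -/
noncomputable def cf0 : Matrix (Fin n) (Fin n) (PowerSeries R) →+* Matrix (Fin n) (Fin n) R :=
  (PowerSeries.constantCoeff : PowerSeries R →+* R).mapMatrix

theorem cf0_eq (M : Matrix (Fin n) (Fin n) (PowerSeries R)) : cf0 M = cf 0 M := by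
  ext i j
  rw [cf, PowerSeries.coeff_zero_eq_constantCoeff]
  rfl

/-- the twist `X ↦ -X` -/
noncomputable def tw : Matrix (Fin n) (Fin n) (PowerSeries R) →+*
    Matrix (Fin n) (Fin n) (PowerSeries R) := (PowerSeries.rescale (-1 : R)).mapMatrix

theorem cf_tw (d : ℕ) (M : Matrix (Fin n) (Fin n) (PowerSeries R)) :
    cf d (tw M) = (-1 : R) ^ d • cf d M := by
  ext i j
  rw [Matrix.smul_apply, smul_eq_mul]
  exact PowerSeries.coeff_rescale (M i j) (-1) d

variable {k : ℕ} (hk : k ≤ n)

/-- the involution `star` -/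
noncomputable def st (M : Matrix (Fin n) (Fin n) (PowerSeries R)) :
    Matrix (Fin n) (Fin n) (PowerSeries R) := tau hk (tw M)

theorem st_mul (M N : Matrix (Fin n) (Fin n) (PowerSeries R)) :
    st hk (M * N) = st hk N * st hk M := by
  rw [st, map_mul, tau_mul]
  rfl

theorem st_one : st hk (1 : Matrix (Fin n) (Fin n) (PowerSeries R)) = 1 := by
  rw [st, map_one, tau_one]

theorem st_pow (M : Matrix (Fin n) (Fin n) (PowerSeries R)) (m : ℕ) :
    st hk (M ^ m) = st hk M ^ m := by
  rw [st, map_pow, tau_pow]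
  rfl

theorem cf_tau (d : ℕ) (M : Matrix (Fin n) (Fin n) (PowerSeries R)) :
    cf d (tau hk M) = tau hk (cf d M) := by
  ext i j
  simp only [cf, tau]
  have h : ∀ z : ℤ, ((z : ℤ) : PowerSeries R) = PowerSeries.C ((z : ℤ) : R) := fun z => by
    rw [map_intCast]
  rw [← Int.cast_mul, ← Int.cast_mul, h, PowerSeries.coeff_C_mul]

theorem cf_st (d : ℕ) (M : Matrix (Fin n) (Fin n) (PowerSeries R)) :
    cf d (st hk M) = (-1 : R) ^ d • tau hk (cf d M) := by
  rw [st, cf_tau, cf_tw, tau_smul]

end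

end Pool.Agent.Helper24Reg4
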