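import Mathlib
import Pool.Agent.Helper24_Reg4.Jet

/-!
# The case `m = 4`: the matrix `Π = N + tE`, the unitary element `z = (1 + Π) (1 - Π)⁻¹`
-/

namespace Pool.Agent.Helper24Reg4

open Finset Matrix Pool.Agent.Helper24Reg

section powers
variable {R : Type*} [CommRing R]

/-- `Π = N + tE` -/
def PT (R : Type*) [CommRing R] (n k : ℕ) (t : R) : Matrix (Fin n) (Fin n) R :=
  NN R n k + t • EE R n k

theorem PT_apply (n k : ℕ) (t : R) (i j : Fin n) : PT R n k t i j =
    (if j.val = i.val + 1 ∧ j.val < k then 1 else 0) +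
      t * (if i.val + 1 = k ∧ j.val = 0 then 1 else 0) := by
  rw [PT, Matrix.add_apply, Matrix.smul_apply, smul_eq_mul]
  rfl

theorem PT_pow {n k : ℕ} {q : R} (hk : k ≤ n) (t : ℕ) (ht : t + 1 ≤ k) (i j : Fin n) :
    (PT R n k q ^ (t + 1)) i j = if i.val < k ∧ j.val < k ∧ j.val = i.val + (t + 1) then 1
      else if i.val < k ∧ j.val < k ∧ j.val + k = i.val + (t + 1) then q else 0 := by
  induction t generalizing i j with
  | zero =>
    rw [zero_add, pow_one, PT_apply]
    split_ifs <;> first | (exfalso; omega) | simp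
  | succ t ih =>
    have ht' : t + 1 ≤ k := by omega
    rw [pow_succ', Matrix.mul_apply]
    by_cases hi : i.val + 1 < k
    · have hin : i.val + 1 < n := by omega
      rw [Finset.sum_eq_single (⟨i.val + 1, hin⟩ : Fin n)]
      · rw [ih ht', PT_apply]
        simp only
        rw [if_pos ⟨trivial, hi⟩, if_neg (c := i.val + 1 = k ∧ i.val + 1 = 0) (by omega),
          mul_zero, add_zero, one_mul]
        split_ifs <;> first | (exfalso; omega) | rfl
      · intro l _ hl
        rw [PT_apply, if_neg, if_neg, mul_zero, add_zero, zero_mul]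
        · omega
        · rintro ⟨h1, _⟩
          exact hl (Fin.ext h1)
      · intro h1; exact absurd (Finset.mem_univ _) h1
    · by_cases hi2 : i.val + 1 = k
      · have h0n : 0 < n := by omega
        rw [Finset.sum_eq_single (⟨0, h0n⟩ : Fin n)]
        · rw [ih ht', PT_apply]
          simp only
          rw [if_neg (c := (0 = i.val + 1 ∧ 0 < k)) (by omega),
            if_pos (c := i.val + 1 = k ∧ True) ⟨hi2, trivial⟩, zero_add, mul_one]
          split_ifs <;> first | (exfalso; omega) | simp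
        · intro l _ hl
          rw [PT_apply, if_neg, if_neg, mul_zero, add_zero, zero_mul]
          · rintro ⟨_, h1⟩
            exact hl (Fin.ext h1)
          · omega
        · intro h1; exact absurd (Finset.mem_univ _) h1
      · rw [if_neg (by omega), if_neg (by omega)]
        apply Finset.sum_eq_zero
        intro l _
        rw [PT_apply, if_neg (by omega), if_neg (by omega), mul_zero, add_zero, zero_mul]

theorem PT_pow_k {n k : ℕ} {q : R} (hk : k ≤ n) (hk0 : 0 < k) :
    PT R n k q ^ k = q • eM R n k := by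
  obtain ⟨t, rfl⟩ : ∃ t, k = t + 1 := ⟨k - 1, by omega⟩
  ext i j
  rw [PT_pow hk t le_rfl, Matrix.smul_apply, smul_eq_mul]
  simp only [eM, Fin.ext_iff]
  split_ifs <;> first | (exfalso; omega) | simp

theorem eM_mul_PT {n k : ℕ} {q : R} (hk : k ≤ n) : eM R n k * PT R n k q = PT R n k q := by
  ext i j
  rw [Matrix.mul_apply, Finset.sum_eq_single i]
  · simp only [eM, true_and]
    by_cases h : i.val < k
    · rw [if_pos h, one_mul]
    · rw [if_neg h, zero_mul, PT_apply, if_neg (by omega), if_neg (by omega), mul_zero, add_zero]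
  · intro l _ hl
    simp only [eM]
    rw [if_neg, zero_mul]
    rintro ⟨h1, _⟩; exact hl h1.symm
  · intro h1; exact absurd (Finset.mem_univ _) h1

theorem PT_pow_add {n k : ℕ} {q : R} (hk : k ≤ n) (hk0 : 0 < k) (t : ℕ) :
    PT R n k q ^ (k + (t + 1)) = q • PT R n k q ^ (t + 1) := by
  rw [pow_add, PT_pow_k hk hk0, smul_mul_assoc, pow_succ', ← mul_assoc (eM R n k), eM_mul_PT hk]

theorem PT_pow_three {n k : ℕ} {q : R} (hk : k ≤ n) (hk0 : 0 < k) (t : ℕ) :
    PT R n k q ^ (3 * k + (t + 1)) = q ^ 3 • PT R n k q ^ (t + 1) := by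
  have e1 : 3 * k + (t + 1) = k + ((k + (k + t)) + 1) := by ring
  have e2 : k + (k + t) + 1 = k + ((k + t) + 1) := by ring
  have e3 : k + t + 1 = k + (t + 1) := by ring
  rw [e1, PT_pow_add hk hk0, e2, PT_pow_add hk hk0, e3, PT_pow_add hk hk0, smul_smul, smul_smul]
  congr 1
  ring

theorem PT_map {S : Type*} [CommRing S] (f : R →+* S) (n k : ℕ) (t : R) :
    f.mapMatrix (PT R n k t) = PT S n k (f t) := by
  ext i j
  simp only [RingHom.mapMatrix_apply, Matrix.map_apply, PT_apply, map_add, map_mul]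
  split_ifs <;> simp

end powers

section units
variable {R : Type*} [CommRing R] {n k : ℕ}

theorem cf_PT_zero (n k : ℕ) :
    cf 0 (PT (PowerSeries R) n k PowerSeries.X) = NN R n k := by
  ext i j
  simp only [cf, PT_apply, NN, map_add, PowerSeries.coeff_zero_X_mul, add_zero]
  split_ifs <;> simp

theorem cf_PT_one (n k : ℕ) :
    cf 1 (PT (PowerSeries R) n k PowerSeries.X) = EE R n k := by
  ext i j
  simp only [cf, PT_apply, EE, map_add]
  rw [show (1 : ℕ) = 0 + 1 from rfl, PowerSeries.coeff_succ_X_mul]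
  split_ifs <;> simp [PowerSeries.coeff_one]

theorem isUnit_of_cf {M : Matrix (Fin n) (Fin n) (PowerSeries R)} (h : IsUnit (cf 0 M)) :
    IsUnit M := by
  rw [Matrix.isUnit_iff_isUnit_det, PowerSeries.isUnit_iff_constantCoeff, RingHom.map_det]
  rw [← cf0_eq, Matrix.isUnit_iff_isUnit_det] at h
  exact h

theorem isUnit_one_sub_NN (hk : k ≤ n) (hk0 : 0 < k) : IsUnit (1 - NN R n k) := by
  apply IsNilpotent.isUnit_one_sub
  exact ⟨k, NN_pow_eq_zero hk k le_rfl hk0⟩

theorem isUnit_one_add_NN (hk : k ≤ n) (hk0 : 0 < k) : IsUnit (1 + NN R n k) := by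
  apply IsNilpotent.isUnit_one_add
  exact ⟨k, NN_pow_eq_zero hk k le_rfl hk0⟩

theorem isUnit_one_sub_PT (hk : k ≤ n) (hk0 : 0 < k) :
    IsUnit (1 - PT (PowerSeries R) n k PowerSeries.X) := by
  apply isUnit_of_cf
  rw [cf_sub, cf_one_zero, cf_PT_zero]
  exact isUnit_one_sub_NN hk hk0

theorem isUnit_one_add_PT (hk : k ≤ n) (hk0 : 0 < k) :
    IsUnit (1 + PT (PowerSeries R) n k PowerSeries.X) := by
  apply isUnit_of_cf
  rw [cf_add, cf_one_zero, cf_PT_zero]
  exact isUnit_one_add_NN hk hk0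

/-- `1 - Π` -/
noncomputable def uM (R : Type*) [CommRing R] {n k : ℕ} (hk : k ≤ n) (hk0 : 0 < k) :
    (Matrix (Fin n) (Fin n) (PowerSeries R))ˣ := (isUnit_one_sub_PT (R := R) hk hk0).unit

/-- `1 + Π` -/
noncomputable def uP (R : Type*) [CommRing R] {n k : ℕ} (hk : k ≤ n) (hk0 : 0 < k) :
    (Matrix (Fin n) (Fin n) (PowerSeries R))ˣ := (isUnit_one_add_PT (R := R) hk hk0).unit

variable (hk : k ≤ n) (hk0 : 0 < k)

theorem uM_val : (uM R hk hk0).val = 1 - PT (PowerSeries R) n k PowerSeries.X := rfl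

theorem uP_val : (uP R hk hk0).val = 1 + PT (PowerSeries R) n k PowerSeries.X := rfl

theorem uP_mul_uM : uP R hk hk0 * uM R hk hk0 = uM R hk hk0 * uP R hk hk0 := by
  apply Units.ext
  rw [Units.val_mul, Units.val_mul, uM_val, uP_val]
  noncomm_ring

/-- `z = (1 + Π) (1 - Π)⁻¹` -/
noncomputable def zt (R : Type*) [CommRing R] {n k : ℕ} (hk : k ≤ n) (hk0 : 0 < k) :
    (Matrix (Fin n) (Fin n) (PowerSeries R))ˣ := uP R hk hk0 * (uM R hk hk0)⁻¹

theorem zt_mul_uM : zt R hk hk0 * uM R hk hk0 = uP R hk hk0 := by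
  rw [zt, inv_mul_cancel_right]

theorem st_PT (hodd : Odd k) : st hk (PT (PowerSeries R) n k PowerSeries.X) =
    -PT (PowerSeries R) n k PowerSeries.X := by
  rw [st, tw, PT_map, PT, tau_add, tau_NN, tau_smul, tau_EE hk hodd]
  have h : (PowerSeries.rescale (-1 : R)) PowerSeries.X = -PowerSeries.X := by
    rw [PowerSeries.rescale_X]
    simp
  rw [h, PT, neg_add, neg_smul]

theorem st_uP (hodd : Odd k) : st hk (uP R hk hk0).val = (uM R hk hk0).val := by
  have h : st hk (uP R hk hk0).val = st hk 1 + st hk (PT (PowerSeries R) n k PowerSeries.X) := by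
    rw [uP_val, st, map_add, tau_add]
    rfl
  rw [h, st_one, st_PT hk hodd, uM_val, sub_eq_add_neg]

theorem st_uM (hodd : Odd k) : st hk (uM R hk hk0).val = (uP R hk hk0).val := by
  have h : st hk (uM R hk hk0).val = st hk 1 - st hk (PT (PowerSeries R) n k PowerSeries.X) := by
    rw [uM_val, st, map_sub, tau_sub]
    rfl
  rw [h, st_one, st_PT hk hodd, uP_val, sub_neg_eq_add]

theorem st_zt (hodd : Odd k) : st hk (zt R hk hk0).val * (zt R hk hk0).val = 1 := by
  have h1 : st hk ((uM R hk hk0)⁻¹).val * (uP R hk hk0).val = 1 := by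
    rw [← st_uM hk hk0 hodd, ← st_mul, Units.mul_inv, st_one]
  have h2 : st hk ((uM R hk hk0)⁻¹).val = ((uP R hk hk0)⁻¹).val :=
    (Units.eq_inv_of_mul_eq_one_right h1)
  have h3 : st hk (zt R hk hk0).val = ((uP R hk hk0)⁻¹ * uM R hk hk0).val := by
    rw [zt, Units.val_mul, st_mul, h2, st_uP hk hk0 hodd, Units.val_mul]
  rw [h3, ← Units.val_mul, zt]
  have h4 : (uP R hk hk0)⁻¹ * uM R hk hk0 * (uP R hk hk0 * (uM R hk hk0)⁻¹) = 1 := by
    rw [mul_assoc, ← mul_assoc (uM R hk hk0), ← uP_mul_uM]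
    group
  rw [h4, Units.val_one]

theorem st_cM (M : Matrix (Fin n) (Fin n) R) : st hk (cM M) = cM (tau hk M) := by
  ext i j d
  have h1 : PowerSeries.coeff d ((st hk (cM M)) i j) = (cf d (st hk (cM M))) i j := rfl
  have h2 : PowerSeries.coeff d ((cM (tau hk M)) i j) = (cf d (cM (tau hk M))) i j := rfl
  rw [h1, h2, cf_st]
  cases d with
  | zero => rw [cf_cM_zero, cf_cM_zero, pow_zero, one_smul]
  | succ d => rw [cf_cM_succ, cf_cM_succ, tau_zero, smul_zero]

/-- the coefficients of a unitary element with constant coefficient `1` -/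
theorem unitary_cf (w : Matrix (Fin n) (Fin n) (PowerSeries R)) (h0 : cf 0 w = 1)
    (h : st hk w * w = 1) : tau hk (cf 1 w) = cf 1 w ∧
      cf 2 w + tau hk (cf 2 w) = cf 1 w * cf 1 w := by
  have e1 : tau hk (cf 1 w) = cf 1 w := by
    have h1 := congrArg (cf 1) h
    rw [cf_mul_one, cf_st, cf_st, h0, tau_one, show (1 : ℕ) = 0 + 1 from rfl, cf_one_succ] at h1
    simp only [pow_zero, one_smul, one_mul, mul_one, zero_add, pow_one, neg_smul] at h1
    exact (sub_eq_zero.1 (by rw [sub_eq_add_neg]; exact h1)).symm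
  refine ⟨e1, ?_⟩
  have h2 := congrArg (cf 2) h
  rw [cf_mul_two, cf_st, cf_st, cf_st, h0, tau_one, e1, show (2 : ℕ) = 1 + 1 from rfl,
    cf_one_succ] at h2
  simp only [pow_zero, one_smul, one_mul, mul_one, pow_one, neg_smul, neg_mul] at h2
  have h3 : ((-1 : R)) ^ (1 + 1) = 1 := by norm_num
  rw [h3, one_smul] at h2
  rw [← sub_eq_zero, ← h2]
  abel

end units

end Pool.Agent.Helper24Reg4
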