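import Mathlib
import Pool.Agent.Helper24_Reg4.Pt
import Pool.Agent.Helper24_Reg.Nilp

/-!
# The case `m = 4`: the elements `x`, `z₁`, `V` and the powers of `D` on `V`
-/

namespace Pool.Agent.Helper24Reg4

open Finset Matrix Pool.Agent.Helper24Reg

section
variable (R : Type*) [CommRing R] {n k : ℕ} (hk : k ≤ n) (hk0 : 0 < k)

/-- `x = (1 + N) (1 - N)⁻¹` -/
noncomputable def xx : (Matrix (Fin n) (Fin n) R)ˣ :=
  Units.map (cf0 : Matrix (Fin n) (Fin n) (PowerSeries R) →+* Matrix (Fin n) (Fin n) R).toMonoidHom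
    (zt R hk hk0)

/-- `1 - N` -/
noncomputable def mm : (Matrix (Fin n) (Fin n) R)ˣ :=
  Units.map (cf0 : Matrix (Fin n) (Fin n) (PowerSeries R) →+* Matrix (Fin n) (Fin n) R).toMonoidHom
    (uM R hk hk0)

/-- `1 + N` -/
noncomputable def pp : (Matrix (Fin n) (Fin n) R)ˣ :=
  Units.map (cf0 : Matrix (Fin n) (Fin n) (PowerSeries R) →+* Matrix (Fin n) (Fin n) R).toMonoidHom
    (uP R hk hk0)

/-- the first coefficient of `z` -/
noncomputable def z1 : Matrix (Fin n) (Fin n) R := cf 1 (zt R hk hk0).val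

theorem xx_val : (xx R hk hk0).val = cf 0 (zt R hk hk0).val := cf0_eq _

theorem mm_val : (mm R hk hk0).val = 1 - NN R n k := by
  have h : (mm R hk hk0).val = cf 0 (uM R hk hk0).val := cf0_eq _
  rw [h, uM_val, cf_sub, cf_one_zero, cf_PT_zero]

theorem pp_val : (pp R hk hk0).val = 1 + NN R n k := by
  have h : (pp R hk hk0).val = cf 0 (uP R hk hk0).val := cf0_eq _
  rw [h, uP_val, cf_add, cf_one_zero, cf_PT_zero]

theorem xx_eq : xx R hk hk0 = pp R hk hk0 * (mm R hk hk0)⁻¹ := by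
  rw [xx, pp, mm, zt, map_mul, map_inv]

theorem xx_mul : (xx R hk hk0).val * (1 - NN R n k) = 1 + NN R n k := by
  rw [← mm_val R hk hk0, ← Units.val_mul, xx_eq, inv_mul_cancel_right, pp_val]

theorem z1_mul : z1 R hk hk0 * (1 - NN R n k) = (1 + (xx R hk hk0).val) * EE R n k := by
  have h1 : (zt R hk hk0).val * (uM R hk hk0).val = (uP R hk hk0).val := by
    rw [← Units.val_mul, zt_mul_uM]
  have h2 := congrArg (cf 1) h1
  rw [cf_mul_one, ← xx_val, uM_val, uP_val, cf_sub, cf_sub, cf_add, cf_one_zero,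
    show (1 : ℕ) = 0 + 1 from rfl, cf_one_succ, zero_add, cf_PT_one, cf_PT_zero, zero_sub,
    zero_add, mul_neg] at h2
  rw [add_mul, one_mul, z1]
  rw [neg_add_eq_iff_eq_add] at h2
  rw [h2, add_comm]

/-- `a = (1 - N)⁻¹` -/
noncomputable def ia : Matrix (Fin n) (Fin n) R := ((mm R hk hk0)⁻¹).val

theorem ia_mul : ia R hk hk0 * (1 - NN R n k) = 1 := by
  rw [ia, ← mm_val R hk hk0, Units.inv_mul]

theorem mul_ia : (1 - NN R n k) * ia R hk hk0 = 1 := by
  rw [ia, ← mm_val R hk hk0, Units.mul_inv]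

theorem comm_ia : Commute (NN R n k) (ia R hk hk0) := by
  have h : Commute (NN R n k) (mm R hk hk0).val := by
    rw [mm_val]
    exact (Commute.one_right _).sub_right (Commute.refl _)
  exact h.units_inv_right

theorem xx_eq' : (xx R hk hk0).val = (1 + NN R n k) * ia R hk hk0 := by
  rw [xx_eq, Units.val_mul, pp_val, ia]

theorem xx_sub_one : (xx R hk hk0).val - 1 = (2 : R) • (NN R n k * ia R hk hk0) := by
  have h : (1 : Matrix (Fin n) (Fin n) R) = (1 - NN R n k) * ia R hk hk0 := (mul_ia R hk hk0).symm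
  rw [xx_eq']
  conv_lhs => rw [h]
  have h2 : (1 - NN R n k) * ia R hk hk0 + NN R n k = 1 + NN R n k := by rw [mul_ia]
  rw [h2, ← sub_mul]
  have h3 : (1 + NN R n k) - (1 - NN R n k) = (2 : R) • NN R n k := by
    module
  rw [h3, smul_mul_assoc]

theorem z1_eq : z1 R hk hk0 = (2 : R) • (ia R hk hk0 * EE R n k * ia R hk hk0) := by
  have h1 : z1 R hk hk0 = (1 + (xx R hk hk0).val) * EE R n k * ia R hk hk0 := by
    rw [← z1_mul, mul_assoc, mul_ia, mul_one]
  have h2 : 1 + (xx R hk hk0).val = (2 : R) • ia R hk hk0 := by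
    rw [xx_eq']
    have h3 : (1 : Matrix (Fin n) (Fin n) R) + (1 + NN R n k) * ia R hk hk0 =
        (1 - NN R n k) * ia R hk hk0 + (1 + NN R n k) * ia R hk hk0 := by rw [mul_ia]
    rw [h3, ← add_mul]
    have h4 : (1 - NN R n k) + (1 + NN R n k) = (2 : R) • (1 : Matrix (Fin n) (Fin n) R) := by
      module
    rw [h4, smul_mul_assoc, one_mul]
  rw [h1, h2, smul_mul_assoc, smul_mul_assoc]

theorem term_eq (i b : ℕ) : ((xx R hk hk0).val - 1) ^ i * z1 R hk hk0 *
    ((xx R hk hk0).val - 1) ^ b = ((2 : R) ^ (i + b + 1)) •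
      (ia R hk hk0 ^ (i + 1) * GG R n k i b * ia R hk hk0 ^ (b + 1)) := by
  have hc := comm_ia R hk hk0
  rw [xx_sub_one, z1_eq, smul_pow, smul_pow, hc.mul_pow, hc.mul_pow, smul_mul_smul_comm,
    smul_mul_smul_comm]
  congr 1
  · ring
  · rw [← pow_EE_pow hk]
    have e1 : NN R n k ^ i * ia R hk hk0 ^ i * ia R hk hk0 =
        ia R hk hk0 ^ (i + 1) * NN R n k ^ i := by
      rw [mul_assoc, ← pow_succ]
      exact (hc.pow_pow i (i + 1)).eq
    have e2 : ia R hk hk0 * (NN R n k ^ b * ia R hk hk0 ^ b) =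
        NN R n k ^ b * ia R hk hk0 ^ (b + 1) := by
      rw [← mul_assoc, ← (hc.pow_left b).eq, mul_assoc, ← pow_succ']
    calc NN R n k ^ i * ia R hk hk0 ^ i * (ia R hk hk0 * EE R n k * ia R hk hk0) *
        (NN R n k ^ b * ia R hk hk0 ^ b)
        = (NN R n k ^ i * ia R hk hk0 ^ i * ia R hk hk0) * EE R n k *
          (ia R hk hk0 * (NN R n k ^ b * ia R hk hk0 ^ b)) := by simp only [mul_assoc]
      _ = _ := by
        rw [e1, e2]
        simp only [mul_assoc]

/-- `V = x⁻¹ z₁` -/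
noncomputable def VV : Matrix (Fin n) (Fin n) R := ((xx R hk hk0)⁻¹).val * z1 R hk hk0

theorem DL_VV (j : ℕ) : ((DL R (xx R hk hk0)) ^ j) (VV R hk hk0) =
    ((xx R hk hk0)⁻¹).val ^ (j + 1) *
      ((dL R ((xx R hk hk0).val - 1)) ^ j) (z1 R hk hk0) := by
  rw [VV]
  exact DL_pow_apply (xx R hk hk0) ((xx R hk hk0).val - 1) (by abel) _ j

theorem dL_z1_zero (j : ℕ) (hj : 2 * k ≤ j + 1) :
    ((dL R ((xx R hk hk0).val - 1)) ^ j) (z1 R hk hk0) = 0 := by
  rw [dL_pow_apply]
  apply Finset.sum_eq_zero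
  intro b hb
  have := Finset.mem_range.1 hb
  rw [term_eq, GG_eq_zero (by omega), mul_zero, zero_mul, smul_zero, smul_zero]

theorem DL_VV_zero (j : ℕ) (hj : 2 * k ≤ j + 1) :
    ((DL R (xx R hk hk0)) ^ j) (VV R hk hk0) = 0 := by
  rw [DL_VV, dL_z1_zero R hk hk0 j hj, mul_zero]

theorem ia_pow_GG (s : ℕ) (b : ℕ) : ia R hk hk0 ^ s * GG R n k (k - 1) b = GG R n k (k - 1) b := by
  have h1 : (1 - NN R n k) * GG R n k (k - 1) b = GG R n k (k - 1) b := by
    rw [sub_mul, one_mul, NN_mul_GG hk, GG_eq_zero (a := k - 1 + 1) (by omega), sub_zero]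
  have h2 : ia R hk hk0 * GG R n k (k - 1) b = GG R n k (k - 1) b := by
    conv_lhs => rw [← h1, ← mul_assoc, ia_mul, one_mul]
  induction s with
  | zero => rw [pow_zero, one_mul]
  | succ s ih => rw [pow_succ, mul_assoc, h2, ih]

theorem GG_ia_pow (s : ℕ) (a : ℕ) : GG R n k a (k - 1) * ia R hk hk0 ^ s = GG R n k a (k - 1) := by
  have h1 : GG R n k a (k - 1) * (1 - NN R n k) = GG R n k a (k - 1) := by
    rw [mul_sub, mul_one, GG_mul_NN hk, GG_eq_zero (b := k - 1 + 1) (by omega), sub_zero]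
  have h2 : GG R n k a (k - 1) * ia R hk hk0 = GG R n k a (k - 1) := by
    conv_lhs => rw [← h1, mul_assoc, mul_ia, mul_one]
  induction s with
  | zero => rw [pow_zero, mul_one]
  | succ s ih => rw [pow_succ', ← mul_assoc, h2, ih]

theorem xx_inv_GG (s : ℕ) (b : ℕ) :
    ((xx R hk hk0)⁻¹).val ^ s * GG R n k (k - 1) b = GG R n k (k - 1) b := by
  have h0 : (1 + NN R n k) * GG R n k (k - 1) b = GG R n k (k - 1) b := by
    rw [add_mul, one_mul, NN_mul_GG hk, GG_eq_zero (a := k - 1 + 1) (by omega), add_zero]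
  have h1 : (xx R hk hk0).val * GG R n k (k - 1) b = GG R n k (k - 1) b := by
    have h3 := ia_pow_GG R hk hk0 1 b
    rw [pow_one] at h3
    rw [xx_eq', mul_assoc, h3, h0]
  have h2 : ((xx R hk hk0)⁻¹).val * GG R n k (k - 1) b = GG R n k (k - 1) b := by
    conv_lhs => rw [← h1, ← mul_assoc, Units.inv_mul, one_mul]
  induction s with
  | zero => rw [pow_zero, one_mul]
  | succ s ih => rw [pow_succ, mul_assoc, h2, ih]

theorem DL_VV_top : ((DL R (xx R hk hk0)) ^ (2 * k - 2)) (VV R hk hk0) =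
    ((-1) ^ (k - 1) * ((2 * k - 2).choose (k - 1) : ℤ)) • (((2 : R) ^ (2 * k - 1)) •
      GG R n k (k - 1) (k - 1)) := by
  rw [DL_VV, dL_pow_apply, Finset.sum_eq_single (k - 1)]
  · rw [term_eq, show 2 * k - 2 - (k - 1) = k - 1 by omega, ia_pow_GG, GG_ia_pow,
      mul_smul_comm, mul_smul_comm, xx_inv_GG]
    congr 3
    omega
  · intro b hb hbk
    have := Finset.mem_range.1 hb
    rw [term_eq, GG_eq_zero (by omega), mul_zero, zero_mul, smul_zero, smul_zero]
  · intro h1; exact absurd (Finset.mem_range.2 (by omega)) h1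

theorem DL_NN_pow (j : ℕ) : DL R (xx R hk hk0) (NN R n k ^ j) = 0 := by
  have hc : Commute (NN R n k) (xx R hk hk0).val := by
    rw [xx_eq']
    exact ((Commute.one_right _).add_right (Commute.refl _)).mul_right (comm_ia R hk hk0)
  rw [DL_apply, (hc.pow_left j).eq, ← mul_assoc, Units.inv_mul, one_mul, sub_self]

end

section mapping
variable {R F : Type*} [CommRing R] [CommRing F] (f : R →+* F) {n k : ℕ} (hk : k ≤ n) (hk0 : 0 < k)

/-- map on matrices over power series -/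
noncomputable def mp : Matrix (Fin n) (Fin n) (PowerSeries R) →+*
    Matrix (Fin n) (Fin n) (PowerSeries F) := (PowerSeries.map f).mapMatrix

theorem map_cf (d : ℕ) (M : Matrix (Fin n) (Fin n) (PowerSeries R)) :
    f.mapMatrix (cf d M) = cf d (mp f M) := by
  ext i j
  change f (PowerSeries.coeff d (M i j)) = PowerSeries.coeff d (PowerSeries.map f (M i j))
  rw [PowerSeries.coeff_map]

theorem mp_PT : mp f (PT (PowerSeries R) n k PowerSeries.X) =
    PT (PowerSeries F) n k PowerSeries.X := by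
  rw [mp, PT_map, PowerSeries.map_X]

theorem mp_zt : mp f (zt R hk hk0).val = (zt F hk hk0).val := by
  have h1 : Units.map (mp f : Matrix (Fin n) (Fin n) (PowerSeries R) →+*
      Matrix (Fin n) (Fin n) (PowerSeries F)).toMonoidHom (uM R hk hk0) = uM F hk hk0 := by
    apply Units.ext
    change mp f (uM R hk hk0).val = _
    rw [uM_val, uM_val, map_sub, map_one, mp_PT]
  have h2 : Units.map (mp f : Matrix (Fin n) (Fin n) (PowerSeries R) →+*
      Matrix (Fin n) (Fin n) (PowerSeries F)).toMonoidHom (uP R hk hk0) = uP F hk hk0 := by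
    apply Units.ext
    change mp f (uP R hk hk0).val = _
    rw [uP_val, uP_val, map_add, map_one, mp_PT]
  have h3 : Units.map (mp f : Matrix (Fin n) (Fin n) (PowerSeries R) →+*
      Matrix (Fin n) (Fin n) (PowerSeries F)).toMonoidHom (zt R hk hk0) = zt F hk hk0 := by
    rw [zt, map_mul, map_inv, h1, h2, zt]
  exact congrArg Units.val h3

theorem map_xx : Units.map (f.mapMatrix : Matrix (Fin n) (Fin n) R →+*
    Matrix (Fin n) (Fin n) F).toMonoidHom (xx R hk hk0) = xx F hk hk0 := by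
  apply Units.ext
  change f.mapMatrix (xx R hk hk0).val = _
  rw [xx_val, map_cf, mp_zt, xx_val]

theorem map_xx_inv : f.mapMatrix ((xx R hk hk0)⁻¹).val = ((xx F hk hk0)⁻¹).val := by
  have h := congrArg (fun u => (u⁻¹).val) (map_xx f hk hk0)
  exact h

theorem map_z1 : f.mapMatrix (z1 R hk hk0) = z1 F hk hk0 := by
  rw [z1, map_cf, mp_zt, z1]

theorem map_VV : f.mapMatrix (VV R hk hk0) = VV F hk hk0 := by
  rw [VV, map_mul, map_xx_inv, map_z1, VV]

theorem map_DL_pow (t : ℕ) (Z : Matrix (Fin n) (Fin n) R) :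
    f.mapMatrix (((DL R (xx R hk hk0)) ^ t) Z) = ((DL F (xx F hk hk0)) ^ t) (f.mapMatrix Z) := by
  induction t with
  | zero => rfl
  | succ t ih =>
    rw [pow_succ', Module.End.mul_apply, pow_succ', Module.End.mul_apply, ← ih, DL_apply,
      DL_apply, map_sub, map_mul, map_mul, map_xx_inv]
    have h : f.mapMatrix (xx R hk hk0).val = (xx F hk hk0).val := by
      rw [← map_xx f hk hk0]
      rfl
    rw [h]

end mapping

end Pool.Agent.Helper24Reg4
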