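import Mathlib
import Pool.Agent.Helper24_Reg4.Val

/-!
# The case `m = 4`: the coefficients of `x⁻ᵖ zᵖ`
-/

namespace Pool.Agent.Helper24Reg4

open Finset Matrix Pool.Agent.Helper24Reg

section tauxx
variable (R : Type*) [CommRing R] {n k : ℕ} (hk : k ≤ n) (hk0 : 0 < k)

theorem tau_xx (hodd : Odd k) : tau hk (xx R hk hk0).val = ((xx R hk hk0)⁻¹).val := by
  have h := congrArg (cf 0) (st_zt (R := R) hk hk0 hodd)
  rw [cf_mul_zero, cf_st, pow_zero, one_smul, cf_one_zero, ← xx_val] at h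
  exact Units.eq_inv_of_mul_eq_one_right h

theorem tau_xx_inv (hodd : Odd k) : tau hk ((xx R hk hk0)⁻¹).val = (xx R hk hk0).val := by
  have h : tau hk ((xx R hk hk0).val * ((xx R hk hk0)⁻¹).val) = 1 := by
    rw [Units.mul_inv, tau_one]
  rw [tau_mul, tau_xx R hk hk0 hodd] at h
  have h2 := Units.eq_inv_of_mul_eq_one_right (u := (xx R hk hk0)⁻¹) h
  rw [inv_inv] at h2
  exact h2

theorem st_zt' (hodd : Odd k) : st hk (zt R hk hk0).val = ((zt R hk hk0)⁻¹).val :=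
  Units.eq_inv_of_mul_eq_one_right (st_zt hk hk0 hodd)

theorem cM_mul (M N : Matrix (Fin n) (Fin n) R) : cM (M * N) = cM M * cM N := map_mul _ _ _

theorem cM_one : cM (1 : Matrix (Fin n) (Fin n) R) = 1 := map_one _

theorem cM_pow (M : Matrix (Fin n) (Fin n) R) (m : ℕ) : cM (M ^ m) = cM M ^ m := map_pow _ _ _

/-- `x⁻ᵐ zᵐ` -/
noncomputable def vt (m : ℕ) : Matrix (Fin n) (Fin n) (PowerSeries R) :=
  cM (((xx R hk hk0)⁻¹).val ^ m) * (zt R hk hk0).val ^ m

theorem st_vt (hodd : Odd k) (m : ℕ) : st hk (vt R hk hk0 m) * vt R hk hk0 m = 1 := by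
  rw [vt, st_mul, st_pow, st_zt' R hk hk0 hodd, st_cM, tau_pow, tau_xx_inv R hk hk0 hodd]
  have h1 : cM ((xx R hk hk0).val ^ m) * cM (((xx R hk hk0)⁻¹).val ^ m) = 1 := by
    rw [← cM_mul, ← Units.val_pow_eq_pow_val, ← Units.val_pow_eq_pow_val, inv_pow, Units.mul_inv,
      cM_one]
  have h2 : ((zt R hk hk0)⁻¹).val ^ m * (zt R hk hk0).val ^ m = 1 := by
    rw [← Units.val_pow_eq_pow_val, ← Units.val_pow_eq_pow_val, inv_pow, Units.inv_mul]
  rw [mul_assoc, ← mul_assoc (cM ((xx R hk hk0).val ^ m)), h1, one_mul, h2]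

theorem cf_pow_zero (M : Matrix (Fin n) (Fin n) (PowerSeries R)) (m : ℕ) :
    cf 0 (M ^ m) = cf 0 M ^ m := by
  rw [← cf0_eq, map_pow, cf0_eq]

theorem cf_zt_pow_one (m : ℕ) : cf 1 ((zt R hk hk0).val ^ m) =
    Q1 (xx R hk hk0).val (z1 R hk hk0) m := by
  induction m with
  | zero => rw [pow_zero, show (1 : ℕ) = 0 + 1 from rfl, cf_one_succ, Q1_zero]
  | succ m ih =>
    rw [pow_succ, cf_mul_one, ih, cf_pow_zero, ← xx_val, Q1_succ, add_comm]
    rfl

theorem cf_vt_zero (m : ℕ) : cf 0 (vt R hk hk0 m) = 1 := by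
  rw [vt, cf_mul_zero, cf_cM_zero, cf_pow_zero, ← xx_val, ← Units.val_pow_eq_pow_val,
    ← Units.val_pow_eq_pow_val, inv_pow, Units.inv_mul]

theorem cf_vt_one (m : ℕ) : cf 1 (vt R hk hk0 m) =
    (∑ j ∈ range m, (conjL R (xx R hk hk0)) ^ j) (VV R hk hk0) := by
  rw [vt, cf_mul_one, cf_cM_zero, show cf 1 (cM (((xx R hk hk0)⁻¹).val ^ m)) = 0 from
    cf_cM_succ 0 _, zero_mul, add_zero, cf_zt_pow_one, Q1_eq_conj (R := R), ← mul_assoc,
    ← Units.val_pow_eq_pow_val, ← Units.val_pow_eq_pow_val, inv_pow, Units.inv_mul, one_mul]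
  rfl

theorem cf_vt_one_one : cf 1 (vt R hk hk0 1) = VV R hk hk0 := by
  rw [cf_vt_one, Finset.sum_range_one, pow_zero, Module.End.one_apply]

theorem cf_X3_smul_zero (M : Matrix (Fin n) (Fin n) (PowerSeries R)) :
    cf 0 ((PowerSeries.X : PowerSeries R) ^ 3 • M) = 0 := by
  rw [pow_succ', mul_smul, cf_X_smul_zero]

theorem cf_X3_smul_three (M : Matrix (Fin n) (Fin n) (PowerSeries R)) :
    cf 3 ((PowerSeries.X : PowerSeries R) ^ 3 • M) = cf 0 M := by
  rw [pow_succ', mul_smul, show (3 : ℕ) = 2 + 1 from rfl, cf_X_smul_succ, pow_succ', mul_smul,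
    show (2 : ℕ) = 1 + 1 from rfl, cf_X_smul_succ, pow_one, show (1 : ℕ) = 0 + 1 from rfl,
    cf_X_smul_succ]

end tauxx

section charp

theorem one_add_pow_prime {A : Type*} [Ring A] {p : ℕ} (hp : p.Prime) (h0 : (p : A) = 0) (X : A) :
    (1 + X) ^ p = 1 + X ^ p := by
  obtain ⟨r, hr⟩ := (Commute.one_left X).exists_add_pow_prime_eq hp
  rw [hr, h0, one_pow]
  simp

theorem one_sub_pow_prime {A : Type*} [Ring A] {p : ℕ} (hp : p.Prime) (hodd : Odd p)
    (h0 : (p : A) = 0) (X : A) : (1 - X) ^ p = 1 - X ^ p := by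
  rw [sub_eq_add_neg, one_add_pow_prime hp h0, hodd.neg_pow, ← sub_eq_add_neg]

variable {F : Type*} [CommRing F] {n k : ℕ} (hk : k ≤ n) (hk0 : 0 < k)

theorem ps_cast {p : ℕ} (hF : (p : F) = 0) :
    (p : Matrix (Fin n) (Fin n) (PowerSeries F)) = 0 := by
  have h1 : ((p : ℕ) : PowerSeries F) = 0 := by
    have h2 : ((p : ℕ) : PowerSeries F) = PowerSeries.C ((p : ℕ) : F) := by rw [map_natCast]
    rw [h2, hF, map_zero]
  ext1 i j
  rw [← mul_one ((p : ℕ) : Matrix (Fin n) (Fin n) (PowerSeries F)), natCast_mul_apply, h1,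
    zero_mul, Matrix.zero_apply]

theorem zt_pow_eq {p : ℕ} (hp : p.Prime) (hF : (p : F) = 0) (r : ℕ)
    (hr : p = 3 * k + (r + 1)) :
    (zt F hk hk0).val ^ p - (PowerSeries.X : PowerSeries F) ^ 3 •
      ((zt F hk hk0).val ^ p * PT (PowerSeries F) n k PowerSeries.X ^ (r + 1)) =
    1 + (PowerSeries.X : PowerSeries F) ^ 3 • PT (PowerSeries F) n k PowerSeries.X ^ (r + 1) := by
  have hodd : Odd p := by
    rcases hp.eq_two_or_odd' with h2 | h2
    · omega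
    · exact h2
  have h1 : zt F hk hk0 ^ p * uM F hk hk0 ^ p = uP F hk hk0 ^ p := by
    have hc : Commute (zt F hk hk0) (uM F hk hk0) := by
      rw [zt]
      exact ((show Commute (uP F hk hk0) (uM F hk hk0) from uP_mul_uM hk hk0)).mul_left
        (Commute.refl _).inv_left
    rw [← hc.mul_pow, zt_mul_uM]
  have h2 := congrArg Units.val h1
  rw [Units.val_mul, Units.val_pow_eq_pow_val, Units.val_pow_eq_pow_val,
    Units.val_pow_eq_pow_val, uM_val, uP_val, one_add_pow_prime hp (ps_cast hF),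
    one_sub_pow_prime hp hodd (ps_cast hF)] at h2
  have h3 : PT (PowerSeries F) n k PowerSeries.X ^ p = (PowerSeries.X : PowerSeries F) ^ 3 •
      PT (PowerSeries F) n k PowerSeries.X ^ (r + 1) := by
    rw [← PT_pow_three hk hk0, ← hr]
  rw [h3, mul_sub, mul_one, mul_smul_comm] at h2
  exact h2

theorem cf_zt_pow_zero {p : ℕ} (hp : p.Prime) (hF : (p : F) = 0) (r : ℕ)
    (hr : p = 3 * k + (r + 1)) : cf 0 ((zt F hk hk0).val ^ p) = 1 := by
  have h := congrArg (cf 0) (zt_pow_eq hk hk0 hp hF r hr)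
  rw [cf_sub, cf_add, cf_X3_smul_zero, cf_X3_smul_zero, sub_zero, add_zero, cf_one_zero] at h
  exact h

theorem cf_zt_pow_three {p : ℕ} (hp : p.Prime) (hF : (p : F) = 0) (r : ℕ)
    (hr : p = 3 * k + (r + 1)) :
    cf 3 ((zt F hk hk0).val ^ p) = (2 : F) • NN F n k ^ (r + 1) := by
  have h := congrArg (cf 3) (zt_pow_eq hk hk0 hp hF r hr)
  rw [cf_sub, cf_add, cf_X3_smul_three, cf_X3_smul_three, cf_mul_zero,
    cf_zt_pow_zero hk hk0 hp hF r hr, one_mul, cf_pow_zero, cf_PT_zero,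
    show (3 : ℕ) = 2 + 1 from rfl, cf_one_succ, zero_add, sub_eq_iff_eq_add] at h
  rw [h, two_smul]

theorem xx_pow_eq_one {p : ℕ} (hp : p.Prime) (hF : (p : F) = 0) (r : ℕ)
    (hr : p = 3 * k + (r + 1)) : ((xx F hk hk0)⁻¹).val ^ p = 1 := by
  have h := cf_zt_pow_zero hk hk0 hp hF r hr
  rw [cf_pow_zero, ← xx_val, ← Units.val_pow_eq_pow_val] at h
  have h2 : xx F hk hk0 ^ p = 1 := Units.ext h
  rw [← Units.val_pow_eq_pow_val, inv_pow, h2, inv_one, Units.val_one]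

theorem cf_vt_three {p : ℕ} (hp : p.Prime) (hF : (p : F) = 0) (r : ℕ)
    (hr : p = 3 * k + (r + 1)) :
    cf 3 (vt F hk hk0 p) = (2 : F) • NN F n k ^ (r + 1) := by
  rw [vt, xx_pow_eq_one hk hk0 hp hF r hr, cM_one, one_mul, cf_zt_pow_three hk hk0 hp hF r hr]

theorem mp_vt {R : Type*} [CommRing R] (f : R →+* F) (m : ℕ) :
    mp f (vt R hk hk0 m) = vt F hk hk0 m := by
  rw [vt, map_mul, map_pow, mp_zt, vt]
  congr 1
  have h : ∀ M : Matrix (Fin n) (Fin n) R, mp f (cM M) = cM (f.mapMatrix M) := by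
    intro M
    apply Matrix.ext
    intro i j
    change PowerSeries.map f (PowerSeries.C (M i j)) = PowerSeries.C (f (M i j))
    rw [PowerSeries.map_C]
  rw [h, map_pow, map_xx_inv]

theorem map_cf_vt_three {R : Type*} [CommRing R] (f : R →+* F) {p : ℕ} (hp : p.Prime)
    (hF : (p : F) = 0) (r : ℕ) (hr : p = 3 * k + (r + 1)) :
    f.mapMatrix (cf 3 (vt R hk hk0 p)) = (2 : F) • NN F n k ^ (r + 1) := by
  rw [map_cf, mp_vt, cf_vt_three hk hk0 hp hF r hr]

end charp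

end Pool.Agent.Helper24Reg4
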