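import Mathlib
import Pool.Agent.Helper24_Reg4.Cert
import Pool.Agent.Helper24_Reg4.Zp
import Pool.Agent.Helper24_Reg.Basic

/-!
# The case `m = 4`: the derived subgroup
-/

namespace Pool.Agent.Helper24Reg4

open Finset Matrix Pool.Agent.Helper24Reg
open scoped commutatorElement

section SR
variable {R M : Type*} [CommRing R] [AddCommGroup M] [Module R M]

/-- the span of `T ^ (i + 1) V` -/
def SR (T : Module.End R M) (V : M) : Submodule R M :=
  Submodule.span R (Set.range fun i : ℕ => (T ^ (i + 1)) V)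

theorem SR_mem (T : Module.End R M) (V : M) (i : ℕ) : (T ^ (i + 1)) V ∈ SR T V :=
  Submodule.subset_span ⟨i, rfl⟩

theorem SR_stable (T : Module.End R M) (V : M) (w : M) (hw : w ∈ SR T V) : T w ∈ SR T V := by
  induction hw using Submodule.span_induction with
  | mem w hw =>
    obtain ⟨i, rfl⟩ := hw
    refine Submodule.subset_span ⟨i + 1, ?_⟩
    simp only
    rw [pow_succ' T (i + 1), Module.End.mul_apply]
  | zero => rw [map_zero]; exact Submodule.zero_mem _
  | add a b _ _ ha hb => rw [map_add]; exact Submodule.add_mem _ ha hb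
  | smul c a _ ha => rw [map_smul]; exact Submodule.smul_mem _ _ ha

theorem SR_exists (T : Module.End R M) (V : M) (K : ℕ) (h0 : (T ^ (K + 1)) V = 0) (w : M)
    (hw : w ∈ SR T V) : ∃ a : ℕ → R, w = ∑ i ∈ range K, a i • (T ^ (i + 1)) V := by
  induction hw using Submodule.span_induction with
  | mem w hw =>
    obtain ⟨i, rfl⟩ := hw
    by_cases hi : i < K
    · refine ⟨fun j => if j = i then 1 else 0, ?_⟩
      rw [Finset.sum_eq_single i]
      · simp
      · intro b _ hb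
        simp only
        rw [if_neg hb, zero_smul]
      · intro h; exact absurd (Finset.mem_range.2 hi) h
    · refine ⟨fun _ => 0, ?_⟩
      simp only [zero_smul, Finset.sum_const_zero]
      obtain ⟨t, ht⟩ : ∃ t, i + 1 = t + (K + 1) := ⟨i - K, by omega⟩
      rw [ht, pow_add, Module.End.mul_apply, h0, map_zero]
  | zero => exact ⟨fun _ => 0, by simp⟩
  | add a b _ _ ha hb =>
    obtain ⟨c, hc⟩ := ha
    obtain ⟨d, hd⟩ := hb
    refine ⟨fun i => c i + d i, ?_⟩
    simp only [add_smul, Finset.sum_add_distrib]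
    rw [← hc, ← hd]
  | smul r a _ ha =>
    obtain ⟨c, hc⟩ := ha
    refine ⟨fun i => r * c i, ?_⟩
    simp only [mul_smul]
    rw [← Finset.smul_sum, ← hc]

end SR

section grp
variable {R F : Type*} [CommRing R] [CommRing F] (f : R →+* F) (q : R) {n k : ℕ} (hk : k ≤ n)
  (hk0 : 0 < k)

/-- the span of the `D ^ (i + 1) V` -/
noncomputable def S1 (R : Type*) [CommRing R] {n k : ℕ} (hk : k ≤ n) (hk0 : 0 < k) :
    Submodule R (Matrix (Fin n) (Fin n) R) := SR (DL R (xx R hk hk0)) (VV R hk hk0)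

theorem tau_conj (hodd : Odd k) (c : Matrix (Fin n) (Fin n) R) :
    tau hk (conjL R (xx R hk hk0) c) = conjL R (xx R hk hk0) (tau hk c) := by
  rw [conjL_apply, conjL_apply, tau_mul, tau_mul, tau_xx R hk hk0 hodd, tau_xx_inv R hk hk0 hodd,
    mul_assoc]

theorem tau_DL (hodd : Odd k) (c : Matrix (Fin n) (Fin n) R) :
    tau hk (DL R (xx R hk hk0) c) = DL R (xx R hk hk0) (tau hk c) := by
  rw [DL, LinearMap.sub_apply, LinearMap.sub_apply, tau_sub, tau_conj hk hk0 hodd]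
  rfl

theorem tau_VV (hodd : Odd k) : tau hk (VV R hk hk0) = VV R hk hk0 := by
  have h := (unitary_cf hk (vt R hk hk0 1) (cf_vt_zero R hk hk0 1) (st_vt R hk hk0 hodd 1)).1
  rw [cf_vt_one_one] at h
  exact h

theorem tau_DL_pow (hodd : Odd k) (j : ℕ) :
    tau hk (((DL R (xx R hk hk0)) ^ j) (VV R hk hk0)) =
      ((DL R (xx R hk hk0)) ^ j) (VV R hk hk0) := by
  induction j with
  | zero => exact tau_VV hk hk0 hodd
  | succ j ih => rw [pow_succ', Module.End.mul_apply, tau_DL hk hk0 hodd, ih]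

theorem tau_S1 (hodd : Odd k) {c : Matrix (Fin n) (Fin n) R} (hc : c ∈ S1 R hk hk0) :
    tau hk c = c := by
  induction hc using Submodule.span_induction with
  | mem w hw =>
    obtain ⟨i, rfl⟩ := hw
    exact tau_DL_pow hk hk0 hodd (i + 1)
  | zero => exact tau_zero hk
  | add a b _ _ ha hb => rw [tau_add, ha, hb]
  | smul c a _ ha => rw [tau_smul, ha]

/-- the subgroup of the elements `1 + q c + q² d`, `c ∈ S1` -/
noncomputable def KG (hfq : f q = 0) (hodd : Odd k) : Subgroup (GL (Fin n) R) where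
  carrier := {g | ∃ c ∈ S1 R hk hk0, CT f q hk c g.val}
  mul_mem' := by
    rintro g h ⟨c, hc, hg⟩ ⟨c', hc', hh⟩
    exact ⟨c + c', (S1 R hk hk0).add_mem hc hc',
      CT.mul hfq (tau_S1 hk hk0 hodd hc) (tau_S1 hk hk0 hodd hc') hg hh⟩
  one_mem' := ⟨0, (S1 R hk hk0).zero_mem, CT.one⟩
  inv_mem' := by
    rintro g ⟨c, hc, hg⟩
    exact ⟨-c, (S1 R hk hk0).neg_mem hc, CT.inv hfq (tau_S1 hk hk0 hodd hc) hg⟩

variable (hq : q ^ 4 = 0)

/-- `z` -/
noncomputable def zz : GL (Fin n) R :=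
  Units.map (evM q hq : Matrix (Fin n) (Fin n) (PowerSeries R) →+*
    Matrix (Fin n) (Fin n) R).toMonoidHom (zt R hk hk0)

/-- `y = x⁻¹ z` -/
noncomputable def yy : GL (Fin n) R := (xx R hk hk0)⁻¹ * zz q hk hk0 hq

theorem yy_val : (yy q hk hk0 hq).val = evM q hq (vt R hk hk0 1) := by
  rw [yy, Units.val_mul, vt, pow_one, pow_one, map_mul, evM_cM]
  rfl

theorem CT_yy (hfq : f q = 0) (hodd : Odd k) : CT f q hk (VV R hk hk0) (yy q hk hk0 hq).val := by
  have hu := unitary_cf hk (vt R hk hk0 1) (cf_vt_zero R hk hk0 1) (st_vt R hk hk0 hodd 1)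
  refine ⟨cf 2 (vt R hk hk0 1) + q • cf 3 (vt R hk hk0 1), ?_, ?_⟩
  · rw [yy_val, evM_eq, cf_vt_zero, cf_vt_one_one, smul_add, smul_smul, ← pow_succ, ← add_assoc]
  · rw [map_add, f_smul f q hfq, add_zero, ← tau_map, ← map_add, hu.2, map_mul, cf_vt_one_one]

theorem KG_conj_x (hfq : f q = 0) (hodd : Odd k) (g : GL (Fin n) R)
    (hg : g ∈ KG f q hk hk0 hfq hodd) :
    (xx R hk hk0)⁻¹ * g * xx R hk hk0 ∈ KG f q hk hk0 hfq hodd := by
  obtain ⟨c, hc, hg⟩ := hg
  refine ⟨((xx R hk hk0)⁻¹).val * (c * (xx R hk hk0).val), ?_, ?_⟩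
  · have h1 : ((xx R hk hk0)⁻¹).val * (c * (xx R hk hk0).val) = DL R (xx R hk hk0) c + c := by
      rw [DL_apply, sub_add_cancel]
    rw [h1]
    exact (S1 R hk hk0).add_mem (SR_stable _ _ _ hc) hc
  · rw [Units.val_mul, Units.val_mul]
    exact CT.conj hfq (tau_xx R hk hk0 hodd) (tau_xx_inv R hk hk0 hodd) hg

theorem KG_conj_y (hfq : f q = 0) (hodd : Odd k) (g : GL (Fin n) R)
    (hg : g ∈ KG f q hk hk0 hfq hodd) :
    (yy q hk hk0 hq)⁻¹ * g * yy q hk hk0 hq ∈ KG f q hk hk0 hfq hodd := by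
  obtain ⟨c, hc, hg⟩ := hg
  refine ⟨c, hc, ?_⟩
  rw [Units.val_mul, Units.val_mul]
  exact CT.conj' hfq (tau_S1 hk hk0 hodd hc) (tau_VV hk hk0 hodd)
    (CT_yy f q hk hk0 hq hfq hodd) hg

theorem KG_comm0 (hfq : f q = 0) (hodd : Odd k) :
    (yy q hk hk0 hq)⁻¹ * ((xx R hk hk0)⁻¹ * yy q hk hk0 hq * xx R hk hk0) ∈
      KG f q hk hk0 hfq hodd := by
  refine ⟨-VV R hk hk0 + ((xx R hk hk0)⁻¹).val * (VV R hk hk0 * (xx R hk hk0).val), ?_, ?_⟩
  · have h1 : -VV R hk hk0 + ((xx R hk hk0)⁻¹).val * (VV R hk hk0 * (xx R hk hk0).val) =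
        ((DL R (xx R hk hk0)) ^ (0 + 1)) (VV R hk hk0) := by
      rw [zero_add, pow_one, DL_apply]
      abel
    rw [h1]
    exact SR_mem _ _ 0
  · rw [Units.val_mul, Units.val_mul, Units.val_mul]
    have hy := CT_yy f q hk hk0 hq hfq hodd
    have hV := tau_VV (R := R) hk hk0 hodd
    refine CT.mul hfq (by rw [tau_neg, hV]) ?_ (CT.inv hfq hV hy)
      (CT.conj hfq (tau_xx R hk hk0 hodd) (tau_xx_inv R hk hk0 hodd) hy)
    have h2 := tau_conj hk hk0 hodd (VV R hk hk0)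
    rw [hV, conjL_apply] at h2
    exact h2

theorem commutator_le [Finite (GL (Fin n) R)] (hfq : f q = 0) (hodd : Odd k) :
    ⁅Subgroup.closure ({xx R hk hk0, yy q hk hk0 hq} : Set (GL (Fin n) R)),
      Subgroup.closure ({xx R hk hk0, yy q hk hk0 hq} : Set (GL (Fin n) R))⁆ ≤
        KG f q hk hk0 hfq hodd := by
  have hKx := KG_conj_x f q hk hk0 hfq hodd
  have hKy := KG_conj_y f q hk hk0 hq hfq hodd
  have hKx' := conj_mem_of_finite _ _ hKx
  have hKy' := conj_mem_of_finite _ _ hKy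
  have hcomm : ⁅xx R hk hk0, yy q hk hk0 hq⁆ ∈ KG f q hk hk0 hfq hodd := by
    have h4 := (KG f q hk hk0 hfq hodd).inv_mem
      (hKx' _ (hKy' _ (KG_comm0 f q hk hk0 hq hfq hodd)))
    have e : (xx R hk hk0 * (yy q hk hk0 hq * ((yy q hk hk0 hq)⁻¹ *
        ((xx R hk hk0)⁻¹ * yy q hk hk0 hq * xx R hk hk0)) * (yy q hk hk0 hq)⁻¹) *
        (xx R hk hk0)⁻¹)⁻¹ = ⁅xx R hk hk0, yy q hk hk0 hq⁆ := by
      rw [commutatorElement_def]; group
    rw [e] at h4
    exact h4
  exact commutator_closure_le (KG f q hk hk0 hfq hodd) _ _ hKx hKx' hKy hKy' hcomm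

theorem mul_three {A : Type*} [Ring A] (a b a' b' : A) : (1 + a + b) * (1 + a' + b') =
    1 + (a + a') + (b + b') + a * a' + a * b' + b * a' + b * b' := by
  noncomm_ring

theorem prod_form {p : ℕ} (hp : p.Prime) (hp5 : 5 ≤ p) (hqp : q = (p : R)) (hfq : f q = 0)
    (hodd : Odd k) (hq : q ^ 4 = 0)
    (l : List (GL (Fin n) R)) (hl : ∀ c ∈ l, c ∈ KG f q hk hk0 hfq hodd) :
    ∃ C ∈ S1 R hk hk0, ∃ e : Matrix (Fin n) (Fin n) R,
      ((l.map (fun c => c ^ p)).prod).val = 1 + q ^ 2 • C + q ^ 3 • e ∧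
      f.mapMatrix e + tau hk (f.mapMatrix e) = 0 := by
  induction l with
  | nil =>
    refine ⟨0, (S1 R hk hk0).zero_mem, 0, ?_, ?_⟩
    · rw [List.map_nil, List.prod_nil, Units.val_one, smul_zero, smul_zero, add_zero, add_zero]
    · rw [map_zero, tau_zero, add_zero]
  | cons c l ih =>
    obtain ⟨C, hC, e, he, he'⟩ := ih (fun c hc => hl c (List.mem_cons_of_mem _ hc))
    obtain ⟨C', hC', hg⟩ := hl c List.mem_cons_self
    obtain ⟨e₁, he₁, he₁'⟩ := CT.pow_p hp hp5 hqp hq hfq (tau_S1 hk hk0 hodd hC') hg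
    refine ⟨C' + C, (S1 R hk hk0).add_mem hC' hC, e₁ + e, ?_, ?_⟩
    · rw [List.map_cons, List.prod_cons, Units.val_mul, Units.val_pow_eq_pow_val, he, he₁]
      have h4 : ∀ M : Matrix (Fin n) (Fin n) R, q ^ 4 • M = 0 := fun M => by rw [hq, zero_smul]
      have h5 : ∀ M : Matrix (Fin n) (Fin n) R, (q ^ 2 * q ^ 2) • M = 0 := fun M => by
        rw [← pow_add]; exact h4 M
      have h6 : ∀ M : Matrix (Fin n) (Fin n) R, (q ^ 2 * q ^ 3) • M = 0 := fun M => by
        rw [← pow_add, pow_succ, hq, zero_mul, zero_smul]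
      have h7 : ∀ M : Matrix (Fin n) (Fin n) R, (q ^ 3 * q ^ 2) • M = 0 := fun M => by
        rw [mul_comm]; exact h6 M
      have h8 : ∀ M : Matrix (Fin n) (Fin n) R, (q ^ 3 * q ^ 3) • M = 0 := fun M => by
        rw [← pow_add, show 3 + 3 = 4 + 2 by norm_num, pow_add, hq, zero_mul, zero_smul]
      rw [mul_three, smul_mul_smul_comm, smul_mul_smul_comm, smul_mul_smul_comm,
        smul_mul_smul_comm, h5, h6, h7, h8, add_zero, add_zero, add_zero, add_zero, smul_add,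
        smul_add]
    · rw [map_add, tau_add]
      have h9 : f.mapMatrix e₁ + f.mapMatrix e + (tau hk (f.mapMatrix e₁) +
          tau hk (f.mapMatrix e)) = (f.mapMatrix e₁ + tau hk (f.mapMatrix e₁)) +
          (f.mapMatrix e + tau hk (f.mapMatrix e)) := by abel
      rw [h9, he₁', he', add_zero]

end grp

end Pool.Agent.Helper24Reg4
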