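import Mathlib
import Pool.Agent.Helper24_Reg4.Grp
import Pool.Agent.Helper24_Reg.Irr3

/-!
# The case `m = 4`: over the residue field
-/

namespace Pool.Agent.Helper24Reg4

open Finset Matrix Pool.Agent.Helper24Reg

theorem indep {F M : Type*} [Field F] [AddCommGroup M] [Module F M] (T : Module.End F M) (V : M)
    (K : ℕ) (h0 : (T ^ (K + 1)) V = 0) (h1 : (T ^ K) V ≠ 0) (a : ℕ → F)
    (hw : ∑ i ∈ range K, a i • (T ^ (i + 1)) V = 0) : ∀ i < K, a i = 0 := by
  have hz : ∀ s, K + 1 ≤ s → (T ^ s) V = 0 := by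
    intro s hs
    obtain ⟨t, rfl⟩ := Nat.exists_eq_add_of_le hs
    rw [add_comm, pow_add, Module.End.mul_apply, h0, map_zero]
  intro i
  induction i using Nat.strong_induction_on with
  | _ i ih =>
    intro hi
    have h2 : (T ^ (K - 1 - i)) (∑ i ∈ range K, a i • (T ^ (i + 1)) V) = 0 := by
      rw [hw, map_zero]
    rw [map_sum, Finset.sum_eq_single i] at h2
    · rw [map_smul, ← Module.End.mul_apply, ← pow_add, show K - 1 - i + (i + 1) = K by omega] at h2
      rcases smul_eq_zero.1 h2 with h3 | h3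
      · exact h3
      · exact absurd h3 h1
    · intro b hb hbi
      rw [map_smul]
      rcases lt_or_gt_of_ne hbi with h3 | h3
      · rw [ih b h3 (by omega), zero_smul]
      · rw [← Module.End.mul_apply, ← pow_add, hz _ (by omega), smul_zero]
    · intro h3; exact absurd (Finset.mem_range.2 (by omega)) h3

section
variable {F : Type*} [Field F] {n k : ℕ} (hk : k ≤ n) (hk0 : 0 < k)

theorem top_ne (hk2 : 2 ≤ k) (hch : ((2 * k - 2).choose (k - 1) : F) ≠ 0) (h2 : (2 : F) ≠ 0) :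
    ((DL F (xx F hk hk0)) ^ (2 * k - 2)) (VV F hk hk0) ≠ 0 := by
  have hn0 : 0 < n := by omega
  have hGne : GG F n k (k - 1) (k - 1) ⟨0, hn0⟩ ⟨k - 1, by omega⟩ = 1 := by
    simp only [GG]
    rw [if_pos ⟨by omega, trivial, by omega⟩]
  rw [DL_VV_top]
  intro h0
  have h1 := congrFun (congrFun h0 ⟨0, hn0⟩) ⟨k - 1, by omega⟩
  rw [Matrix.smul_apply, Matrix.smul_apply, hGne, Matrix.zero_apply, zsmul_eq_mul, smul_eq_mul,
    mul_one, Int.cast_mul, Int.cast_pow, Int.cast_neg, Int.cast_one, Int.cast_natCast] at h1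
  rcases mul_eq_zero.1 h1 with h3 | h3
  · rcases mul_eq_zero.1 h3 with h4 | h4
    · exact pow_ne_zero _ (neg_ne_zero.2 one_ne_zero) h4
    · exact hch h4
  · exact pow_ne_zero _ h2 h3

theorem NN_pow_not_mem' (hk2 : 2 ≤ k) (hch : ((2 * k - 2).choose (k - 1) : F) ≠ 0)
    (h2 : (2 : F) ≠ 0) (j : ℕ) (hj : j + 1 < k) (a : ℕ → F)
    (h : NN F n k ^ j = ∑ i ∈ range (2 * k - 2),
      a i • ((DL F (xx F hk hk0)) ^ (i + 1)) (VV F hk hk0)) : False := by
  have hn0 : 0 < n := by omega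
  have hT0 := DL_VV_zero F hk hk0 (2 * k - 2 + 1) (by omega)
  have h3 := nilp_lemma (DL F (xx F hk hk0)) (VV F hk hk0) (2 * k - 2) (by omega) hT0
    (top_ne hk hk0 hk2 hch h2) a (by rw [← h]; exact DL_NN_pow F hk hk0 j)
  rw [← h, DL_VV_top] at h3
  have h4 := congrFun (congrFun h3 ⟨0, hn0⟩) ⟨j, by omega⟩
  rw [Matrix.smul_apply, Matrix.smul_apply, Matrix.smul_apply] at h4
  have h5 : GG F n k (k - 1) (k - 1) ⟨0, hn0⟩ ⟨j, by omega⟩ = 0 := by
    simp only [GG]
    rw [if_neg]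
    omega
  rw [h5, smul_zero, smul_zero, smul_zero] at h4
  have h6 : (NN F n k ^ j) ⟨0, hn0⟩ ⟨j, by omega⟩ = 1 := by
    rcases Nat.eq_zero_or_pos j with rfl | hj0
    · rw [pow_zero]; exact Matrix.one_apply_eq _
    · obtain ⟨s, rfl⟩ : ∃ s, j = s + 1 := ⟨j - 1, by omega⟩
      rw [NN_pow hk, if_pos]
      exact ⟨by simp, by simp only; omega⟩
  rw [h6] at h4
  exact one_ne_zero h4

end

section form
variable (R : Type*) [CommRing R] {n k : ℕ} (hk : k ≤ n) (hk0 : 0 < k)

/-- the first coefficient of `x⁻ᵖ zᵖ` -/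
theorem vt_one_form {p : ℕ} (hp : p.Prime) (h3 : 2 * k < p) :
    ∃ s ∈ S1 R hk hk0, cf 1 (vt R hk hk0 p) = (p : R) • (VV R hk hk0 + s) := by
  obtain ⟨r, hr⟩ : ∃ r, p = r + 1 + 1 := ⟨p - 2, by have := hp.two_le; omega⟩
  have hcc : ∀ t ∈ range r, ∃ c : ℕ, p.choose (t + 1 + 1) = p * c := by
    intro t ht
    have := Finset.mem_range.1 ht
    exact hp.dvd_choose_self (by omega) (by omega)
  choose! c hc using hcc
  refine ⟨∑ t ∈ range r, (c t : R) • ((DL R (xx R hk hk0)) ^ (t + 1)) (VV R hk hk0), ?_, ?_⟩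
  · exact Submodule.sum_mem _ fun t _ => Submodule.smul_mem _ _ (SR_mem _ _ t)
  · rw [cf_vt_one, geom_sum_conj, LinearMap.sum_apply]
    have hrange : range p = range (r + 1 + 1) := by rw [← hr]
    have hterm : ∀ t, ((p.choose (t + 1) : Module.End R (Matrix (Fin n) (Fin n) R)) *
        (conjL R (xx R hk hk0) - 1) ^ t : Module.End R (Matrix (Fin n) (Fin n) R))
          (VV R hk hk0) = (p.choose (t + 1) : R) •
          ((DL R (xx R hk hk0)) ^ t) (VV R hk hk0) := by
      intro t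
      rw [Module.End.mul_apply, Module.End.natCast_apply, Nat.cast_smul_eq_nsmul]
      rfl
    rw [Finset.sum_congr rfl fun t _ => hterm t, hrange, Finset.sum_range_succ,
      Finset.sum_range_succ', DL_VV_zero R hk hk0 (r + 1) (by omega), smul_zero, add_zero,
      zero_add, Nat.choose_one_right, pow_zero, Module.End.one_apply, smul_add, Finset.smul_sum,
      add_comm]
    congr 1
    refine Finset.sum_congr rfl fun t ht => ?_
    rw [hc t ht, Nat.cast_mul, mul_smul]

end form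

end Pool.Agent.Helper24Reg4
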