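import Mathlib
import Pool.Agent.Helper24_Reg4.Fld

/-!
# The case `m = 4`: the pair
-/

namespace Pool.Agent.Helper24Reg4

open Finset Matrix Pool.Agent.Helper24Reg
open scoped commutatorElement

section ker
variable (p : ℕ) [hp : Fact p.Prime]

/-- reduction modulo `p` -/
noncomputable def fp : ZMod (p ^ 4) →+* ZMod p :=
  ZMod.castHom (dvd_pow_self p (by norm_num : (4 : ℕ) ≠ 0)) (ZMod p)

theorem q_pow : ((p : ZMod (p ^ 4))) ^ 4 = 0 := by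
  rw [← Nat.cast_pow, ZMod.natCast_self]

theorem fp_q : fp p ((p : ℕ) : ZMod (p ^ 4)) = 0 := by
  rw [map_natCast, ZMod.natCast_self]

theorem ker1 (a : ZMod (p ^ 4)) (h : fp p a = 0) : ∃ b : ZMod (p ^ 4), a = (p : ZMod (p ^ 4)) * b := by
  have hne : NeZero (p ^ 4) := ⟨pow_ne_zero _ hp.out.ne_zero⟩
  obtain ⟨z, hz⟩ : ∃ z : ℕ, (z : ZMod (p ^ 4)) = a := ⟨a.val, ZMod.natCast_zmod_val _⟩
  rw [← hz, map_natCast, ZMod.natCast_eq_zero_iff] at h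
  obtain ⟨c, rfl⟩ := h
  exact ⟨(c : ZMod (p ^ 4)), by rw [← hz, Nat.cast_mul]⟩

theorem ker3 (a : ZMod (p ^ 4)) (h : (p : ZMod (p ^ 4)) ^ 3 * a = 0) : fp p a = 0 := by
  have hne : NeZero (p ^ 4) := ⟨pow_ne_zero _ hp.out.ne_zero⟩
  obtain ⟨z, hz⟩ : ∃ z : ℕ, (z : ZMod (p ^ 4)) = a := ⟨a.val, ZMod.natCast_zmod_val _⟩
  rw [← hz] at h ⊢
  rw [map_natCast, ZMod.natCast_eq_zero_iff]
  rw [← Nat.cast_pow, ← Nat.cast_mul, ZMod.natCast_eq_zero_iff, pow_succ (n := 3)] at h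
  exact Nat.dvd_of_mul_dvd_mul_left (pow_pos hp.out.pos 3) h

theorem ker2 (a : ZMod (p ^ 4)) (h : (p : ZMod (p ^ 4)) ^ 2 * a = 0) :
    ∃ b : ZMod (p ^ 4), a = (p : ZMod (p ^ 4)) ^ 2 * b := by
  have hne : NeZero (p ^ 4) := ⟨pow_ne_zero _ hp.out.ne_zero⟩
  obtain ⟨z, hz⟩ : ∃ z : ℕ, (z : ZMod (p ^ 4)) = a := ⟨a.val, ZMod.natCast_zmod_val _⟩
  rw [← hz] at h
  rw [← Nat.cast_pow, ← Nat.cast_mul, ZMod.natCast_eq_zero_iff, show 4 = 2 + 2 by norm_num,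
    pow_add] at h
  obtain ⟨c, hc⟩ := Nat.dvd_of_mul_dvd_mul_left (pow_pos hp.out.pos 2) h
  exact ⟨(c : ZMod (p ^ 4)), by rw [← hz, hc, Nat.cast_mul, Nat.cast_pow]⟩

variable {p} {n : ℕ}

theorem kerM1 (M : Matrix (Fin n) (Fin n) (ZMod (p ^ 4))) (h : (fp p).mapMatrix M = 0) :
    ∃ B : Matrix (Fin n) (Fin n) (ZMod (p ^ 4)), M = (p : ZMod (p ^ 4)) • B := by
  have h1 : ∀ i j, ∃ b, M i j = (p : ZMod (p ^ 4)) * b := fun i j =>
    ker1 p (M i j) (congrFun (congrFun h i) j)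
  choose B hB using h1
  exact ⟨B, by ext i j; rw [hB, Matrix.smul_apply, smul_eq_mul]⟩

theorem kerM2 (M : Matrix (Fin n) (Fin n) (ZMod (p ^ 4)))
    (h : (p : ZMod (p ^ 4)) ^ 2 • M = 0) :
    ∃ B : Matrix (Fin n) (Fin n) (ZMod (p ^ 4)), M = (p : ZMod (p ^ 4)) ^ 2 • B := by
  have h1 : ∀ i j, ∃ b, M i j = (p : ZMod (p ^ 4)) ^ 2 * b := fun i j =>
    ker2 p (M i j) (congrFun (congrFun h i) j)
  choose B hB using h1
  exact ⟨B, by ext i j; rw [hB, Matrix.smul_apply, smul_eq_mul]⟩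

theorem kerM3 (M : Matrix (Fin n) (Fin n) (ZMod (p ^ 4)))
    (h : (p : ZMod (p ^ 4)) ^ 3 • M = 0) : (fp p).mapMatrix M = 0 := by
  ext i j
  exact ker3 p (M i j) (congrFun (congrFun h i) j)

theorem fp_smul (r : ZMod (p ^ 4)) (M : Matrix (Fin n) (Fin n) (ZMod (p ^ 4))) :
    (fp p).mapMatrix (r • M) = (fp p r) • (fp p).mapMatrix M := by
  ext i j
  exact map_mul (fp p) r (M i j)

end ker

theorem vt_eval {R : Type*} [CommRing R] (q : R) {n k : ℕ} (hk : k ≤ n) (hk0 : 0 < k)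
    (hq : q ^ 4 = 0) (m : ℕ) : evM q hq (vt R hk hk0 m) =
      (((xx R hk hk0)⁻¹) ^ m * (zz q hk hk0 hq) ^ m).val := by
  rw [vt, map_mul, evM_cM, map_pow, Units.val_mul, Units.val_pow_eq_pow_val,
    Units.val_pow_eq_pow_val]
  rfl

theorem pair_core {p : ℕ} [hp : Fact p.Prime] {n k : ℕ} (hk : k ≤ n) (hk0 : 0 < k)
    (hodd : Odd k) (h3 : 3 * k < p) (h4 : p + 3 ≤ 4 * k) :
    ¬ RegPair p (xx (ZMod (p ^ 4)) hk hk0)
      (yy ((p : ℕ) : ZMod (p ^ 4)) hk hk0 (q_pow p)) := by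
  have hne : NeZero (p ^ 4) := ⟨pow_ne_zero _ hp.out.ne_zero⟩
  have hfin : Finite (GL (Fin n) (ZMod (p ^ 4))) := by
    unfold Matrix.GeneralLinearGroup
    infer_instance
  set q : ZMod (p ^ 4) := ((p : ℕ) : ZMod (p ^ 4)) with hqdef
  set f := fp p with hf
  have hq : q ^ 4 = 0 := q_pow p
  have hfq : f q = 0 := fp_q p
  have hp5 : 5 ≤ p := by omega
  have hpodd : Odd p := by
    rcases hp.out.eq_two_or_odd' with h2 | h2
    · omega
    · exact h2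
  set x := xx (ZMod (p ^ 4)) hk hk0 with hx
  set V := VV (ZMod (p ^ 4)) hk hk0 with hV
  rintro ⟨l, hl, he⟩
  obtain ⟨C, hC, e, hprod, he'⟩ := prod_form f q hk hk0 hp.out hp5 rfl hfq hodd hq l
    (fun c hc => commutator_le f q hk hk0 hq hfq hodd (hl c hc))
  obtain ⟨e₁, hy, he₁'⟩ := CT.pow_p hp.out hp5 rfl hq hfq (tau_VV hk hk0 hodd)
    (CT_yy f q hk hk0 hq hfq hodd)
  -- the equation
  have hxy : x * yy q hk hk0 hq = zz q hk hk0 hq := by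
    rw [yy, mul_inv_cancel_left]
  rw [hxy] at he
  have he2 : (x⁻¹) ^ p * (zz q hk hk0 hq) ^ p =
      (yy q hk hk0 hq) ^ p * (l.map (fun c => c ^ p)).prod := by
    rw [he, inv_pow, ← mul_assoc, ← mul_assoc, inv_mul_cancel, one_mul]
  have he3 := congrArg Units.val he2
  rw [← vt_eval, Units.val_mul, Units.val_pow_eq_pow_val, hprod, hy, evM_eq, cf_vt_zero,
    mul_three, smul_mul_smul_comm, smul_mul_smul_comm, smul_mul_smul_comm,
    smul_mul_smul_comm] at he3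
  have k5 : ∀ M : Matrix (Fin n) (Fin n) (ZMod (p ^ 4)), (q ^ 2 * q ^ 2) • M = 0 := fun M => by
    rw [← pow_add, hq, zero_smul]
  have k6 : ∀ M : Matrix (Fin n) (Fin n) (ZMod (p ^ 4)), (q ^ 2 * q ^ 3) • M = 0 := fun M => by
    have h : q ^ 2 * q ^ 3 = q ^ 4 * q := by ring
    rw [h, hq, zero_mul, zero_smul]
  have k7 : ∀ M : Matrix (Fin n) (Fin n) (ZMod (p ^ 4)), (q ^ 3 * q ^ 2) • M = 0 := fun M => by
    rw [mul_comm]; exact k6 M
  have k8 : ∀ M : Matrix (Fin n) (Fin n) (ZMod (p ^ 4)), (q ^ 3 * q ^ 3) • M = 0 := fun M => by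
    have h : q ^ 3 * q ^ 3 = q ^ 4 * q ^ 2 := by ring
    rw [h, hq, zero_mul, zero_smul]
  rw [k5, k6, k7, k8, add_zero, add_zero, add_zero, add_zero] at he3
  obtain ⟨s₀, hs₀, hv1⟩ := vt_one_form (ZMod (p ^ 4)) hk hk0 hp.out (by omega)
  have hu := unitary_cf hk (vt (ZMod (p ^ 4)) hk hk0 p) (cf_vt_zero _ hk hk0 p)
    (st_vt _ hk hk0 hodd p)
  set v₂ := cf 2 (vt (ZMod (p ^ 4)) hk hk0 p) with hv₂
  set v₃ := cf 3 (vt (ZMod (p ^ 4)) hk hk0 p) with hv₃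
  have hv3 : f.mapMatrix v₃ = (2 : ZMod p) • NN (ZMod p) n k ^ (p - 3 * k - 1 + 1) :=
    map_cf_vt_three hk hk0 f hp.out (ZMod.natCast_self p) (p - 3 * k - 1) (by omega)
  rw [show p - 3 * k - 1 + 1 = p - 3 * k by omega] at hv3
  rw [hv1] at he3 hu
  -- E1
  have E1 : q ^ 2 • (s₀ - C) + q ^ 2 • v₂ + q ^ 3 • (v₃ - (e₁ + e)) = 0 := by
    rw [smul_smul, ← hqdef, ← pow_two] at he3
    have h5 : 1 + q ^ 2 • (V + s₀) + q ^ 2 • v₂ + q ^ 3 • v₃ -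
        (1 + (q ^ 2 • V + q ^ 2 • C) + (q ^ 3 • e₁ + q ^ 3 • e)) = 0 := sub_eq_zero.2 he3
    rw [← h5]
    module
  -- E2
  have hsC : s₀ - C ∈ S1 (ZMod (p ^ 4)) hk hk0 := Submodule.sub_mem _ hs₀ hC
  have hts : tau hk (s₀ - C) = s₀ - C := tau_S1 hk hk0 hodd hsC
  have htv : q ^ 2 • tau hk v₂ = -(q ^ 2 • v₂) := by
    have h5 : tau hk v₂ = (q • (V + s₀)) * (q • (V + s₀)) - v₂ := by
      rw [← hu.2]
      abel
    rw [h5, smul_mul_smul_comm, smul_sub, smul_smul]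
    have h6 : q ^ 2 * (q * q) = 0 := by rw [← pow_two, ← pow_add, hq]
    rw [h6, zero_smul, zero_sub]
  have E2 : q ^ 2 • (s₀ - C) - q ^ 2 • v₂ + q ^ 3 • (tau hk v₃ - tau hk (e₁ + e)) = 0 := by
    have h5 := congrArg (tau hk) E1
    rw [tau_add, tau_add, tau_smul, tau_smul, tau_smul, hts, htv, tau_sub, tau_zero] at h5
    rw [sub_eq_add_neg]
    exact h5
  -- the correction terms vanish
  have hw : q ^ 3 • ((e₁ + e) + tau hk (e₁ + e)) = 0 := by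
    obtain ⟨B, hB⟩ := kerM1 ((e₁ + e) + tau hk (e₁ + e)) (by
      rw [map_add, map_add, tau_map, map_add, tau_add]
      have h9 : f.mapMatrix e₁ + f.mapMatrix e + (tau hk (f.mapMatrix e₁) +
          tau hk (f.mapMatrix e)) = (f.mapMatrix e₁ + tau hk (f.mapMatrix e₁)) +
          (f.mapMatrix e + tau hk (f.mapMatrix e)) := by abel
      rw [h9, he₁', he', add_zero])
    rw [hB, smul_smul, ← hqdef, ← pow_succ, hq, zero_smul]
  have E3 : q ^ 2 • ((2 : ZMod (p ^ 4)) • (s₀ - C) + q • (v₃ + tau hk v₃)) = 0 := by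
    have h5 : q ^ 2 • ((2 : ZMod (p ^ 4)) • (s₀ - C) + q • (v₃ + tau hk v₃)) =
        (q ^ 2 • (s₀ - C) + q ^ 2 • v₂ + q ^ 3 • (v₃ - (e₁ + e))) +
        (q ^ 2 • (s₀ - C) - q ^ 2 • v₂ + q ^ 3 • (tau hk v₃ - tau hk (e₁ + e))) +
        q ^ 3 • ((e₁ + e) + tau hk (e₁ + e)) := by
      module
    rw [h5, E1, E2, hw, add_zero, add_zero]
  -- the kernel arguments
  obtain ⟨B, hB⟩ := kerM2 _ E3
  have h20 : (2 : ZMod p) ≠ 0 := by
    intro h0
    have h6 : ((2 : ℕ) : ZMod p) = 0 := by exact_mod_cast h0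
    rw [ZMod.natCast_eq_zero_iff] at h6
    have := Nat.le_of_dvd (by norm_num) h6
    omega
  have hfs : f.mapMatrix (s₀ - C) = 0 := by
    have h5 := congrArg f.mapMatrix hB
    rw [map_add, fp_smul, fp_smul, fp_smul, hfq, zero_smul, add_zero, map_pow, hfq] at h5
    have h6 : f (2 : ZMod (p ^ 4)) = 2 := map_ofNat f 2
    rw [h6, zero_pow (by norm_num), zero_smul] at h5
    rcases smul_eq_zero.1 h5 with h7 | h7
    · exact absurd h7 h20
    · exact h7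
  have hT0 := DL_VV_zero (ZMod (p ^ 4)) hk hk0 (2 * k - 2 + 1) (by omega)
  obtain ⟨a, ha⟩ := SR_exists (DL (ZMod (p ^ 4)) x) V (2 * k - 2) hT0 (s₀ - C)
    hsC
  have hch : ((2 * k - 2).choose (k - 1) : ZMod p) ≠ 0 :=
    choose_ne_zero p _ _ (by omega) (by omega)
  have hmapsum : ∀ a : ℕ → ZMod (p ^ 4),
      f.mapMatrix (∑ i ∈ range (2 * k - 2), a i • ((DL (ZMod (p ^ 4)) x) ^ (i + 1)) V) =
      ∑ i ∈ range (2 * k - 2), f (a i) • ((DL (ZMod p) (xx (ZMod p) hk hk0)) ^ (i + 1))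
        (VV (ZMod p) hk hk0) := by
    intro a
    rw [map_sum]
    refine Finset.sum_congr rfl fun i _ => ?_
    rw [fp_smul, hx, hV, map_DL_pow, map_VV]
  have hai : ∀ i < 2 * k - 2, f (a i) = 0 := by
    apply indep (DL (ZMod p) (xx (ZMod p) hk hk0)) (VV (ZMod p) hk hk0) (2 * k - 2)
      (DL_VV_zero (ZMod p) hk hk0 (2 * k - 2 + 1) (by omega))
      (top_ne hk hk0 (by omega) hch h20) (fun i => f (a i))
    rw [← hmapsum, ← ha, hfs]
  have hbi : ∀ i, ∃ b : ZMod (p ^ 4), i < 2 * k - 2 → a i = q * b := by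
    intro i
    by_cases hi : i < 2 * k - 2
    · obtain ⟨b, hb⟩ := ker1 p (a i) (hai i hi)
      exact ⟨b, fun _ => hb⟩
    · exact ⟨0, fun h => absurd h hi⟩
  choose b hb using hbi
  have hs : s₀ - C = q • ∑ i ∈ range (2 * k - 2),
      b i • ((DL (ZMod (p ^ 4)) x) ^ (i + 1)) V := by
    rw [ha, Finset.smul_sum]
    refine Finset.sum_congr rfl fun i hi => ?_
    rw [hb i (Finset.mem_range.1 hi), mul_smul]
  set s' := ∑ i ∈ range (2 * k - 2), b i • ((DL (ZMod (p ^ 4)) x) ^ (i + 1)) V with hs'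
  have E4 : q ^ 3 • ((2 : ZMod (p ^ 4)) • s' + (v₃ + tau hk v₃)) = 0 := by
    rw [hs] at E3
    rw [← E3]
    module
  have h5 := kerM3 _ E4
  have h6 : f (2 : ZMod (p ^ 4)) = 2 := map_ofNat f 2
  have hreven : Even (p - 3 * k) := by
    apply Nat.Odd.sub_odd hpodd
    exact Odd.mul (by decide) hodd
  have htN : tau hk (NN (ZMod p) n k ^ (p - 3 * k)) = NN (ZMod p) n k ^ (p - 3 * k) := by
    rw [tau_pow, tau_NN, hreven.neg_pow]
  rw [map_add, map_add, tau_map, hv3, fp_smul, h6, tau_smul, htN, hs', hmapsum] at h5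
  have h7 : NN (ZMod p) n k ^ (p - 3 * k) = ∑ i ∈ range (2 * k - 2),
      (-(2 : ZMod p)⁻¹ * f (b i)) • ((DL (ZMod p) (xx (ZMod p) hk hk0)) ^ (i + 1))
        (VV (ZMod p) hk hk0) := by
    have h8 : ∑ i ∈ range (2 * k - 2),
        (-(2 : ZMod p)⁻¹ * f (b i)) • ((DL (ZMod p) (xx (ZMod p) hk hk0)) ^ (i + 1))
        (VV (ZMod p) hk hk0) = (-(2 : ZMod p)⁻¹) • ∑ i ∈ range (2 * k - 2),
        f (b i) • ((DL (ZMod p) (xx (ZMod p) hk hk0)) ^ (i + 1)) (VV (ZMod p) hk hk0) := by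
      rw [Finset.smul_sum]
      refine Finset.sum_congr rfl fun i _ => ?_
      rw [mul_smul]
    rw [h8]
    set W := ∑ i ∈ range (2 * k - 2),
        f (b i) • ((DL (ZMod p) (xx (ZMod p) hk hk0)) ^ (i + 1)) (VV (ZMod p) hk hk0)
    set Z := NN (ZMod p) n k ^ (p - 3 * k)
    have h9 : (2 : ZMod p) • ((2 : ZMod p) • Z + W) = 0 := by
      rw [← h5]
      module
    rcases smul_eq_zero.1 h9 with h10 | h10
    · exact absurd h10 h20
    · have h11 : (2 : ZMod p) • Z = -W := eq_neg_of_add_eq_zero_left h10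
      have h12 : (2 : ZMod p)⁻¹ • ((2 : ZMod p) • Z) = Z := by
        rw [smul_smul, inv_mul_cancel₀ h20, one_smul]
      rw [← h12, h11, smul_neg, neg_smul]
  exact NN_pow_not_mem' hk hk0 (by omega) hch h20 (p - 3 * k) (by omega) _ h7

end Pool.Agent.Helper24Reg4
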