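import Mathlib
import Pool.Agent.Helper24_Reg4.Pair
import Pool.Agent.Helper24_Reg.RegMain

/-!
# The case `m = 4`: irregularity
-/

namespace Pool.Agent.Helper24Reg4

open Finset Matrix Pool.Agent.Helper24Reg

section
variable {R : Type*} [CommRing R]

theorem PCond_one_sub_NN (q : R) (n k : ℕ) : PCond q (1 - NN R n k) := by
  refine ⟨fun i => ?_, fun i j hij => ?_⟩
  · rw [Matrix.sub_apply, Matrix.one_apply_eq]
    simp only [NN]
    rw [if_neg (by omega), sub_zero, sub_self]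
    exact dvd_zero _
  · rw [Matrix.sub_apply, Matrix.one_apply_ne (ne_of_gt hij)]
    simp only [NN]
    have : j.val < i.val := hij
    rw [if_neg (by omega), sub_zero]
    exact dvd_zero _

theorem PCond_one_sub_PiM (q : ℕ) (n k : ℕ) (hk : 2 ≤ k) :
    PCond (q : R) (1 - PiM R q n k) := by
  refine ⟨fun i => ?_, fun i j hij => ?_⟩
  · rw [Matrix.sub_apply, Matrix.one_apply_eq, PiM_apply]
    rw [if_neg (by omega), if_neg (by omega), mul_zero, add_zero, sub_zero, sub_self]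
    exact dvd_zero _
  · rw [Matrix.sub_apply, Matrix.one_apply_ne (ne_of_gt hij), zero_sub, PiM_apply]
    have : j.val < i.val := hij
    rw [if_neg (by omega), zero_add, dvd_neg]
    exact dvd_mul_right _ _

theorem map_one_sub_NN {S : Type*} [CommRing S] (f : R →+* S) (n k : ℕ) :
    f.mapMatrix (1 - NN R n k) = 1 - NN S n k := by
  rw [map_sub, map_one]
  congr 1
  ext i j
  simp only [RingHom.mapMatrix_apply, Matrix.map_apply, NN]
  split_ifs <;> simp

theorem map_one_sub_PiM {S : Type*} [CommRing S] (f : R →+* S) (q n k : ℕ) :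
    f.mapMatrix (1 - PiM R q n k) = 1 - PiM S q n k := by
  rw [map_sub, map_one]
  congr 1
  ext i j
  simp only [RingHom.mapMatrix_apply, Matrix.map_apply, PiM_apply]
  split_ifs <;> simp

theorem PT_eq_PiM (q n k : ℕ) : PT R n k (q : R) = PiM R q n k := by
  ext i j
  rw [PT_apply, PiM_apply]

theorem evM_uP {n k : ℕ} (hk : k ≤ n) (hk0 : 0 < k) (q : R) (hq : q ^ 4 = 0) :
    evM q hq (uP R hk hk0).val = 1 + PT R n k q := by
  rw [uP_val, map_add, map_one, evM, PT_map, evq_X]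

theorem evM_uM {n k : ℕ} (hk : k ≤ n) (hk0 : 0 < k) (q : R) (hq : q ^ 4 = 0) :
    evM q hq (uM R hk hk0).val = 1 - PT R n k q := by
  rw [uM_val, map_sub, map_one, evM, PT_map, evq_X]

end

theorem not_regular_block (p m n k : ℕ) [hp : Fact p.Prime] (hm : 4 ≤ m) (hk : k ≤ n)
    (hodd : Odd k) (h3 : 3 * k < p) (h4 : p + 3 ≤ 4 * k) : ¬ IsRegular p (P p m n) := by
  intro h
  have hk0 : 0 < k := by omega
  have hk2 : 2 ≤ k := by omega
  have hm0 : m ≠ 0 := by omega
  let A : P p m n := ⟨((PCond_one_add_NN _ n k).isUnit hm0).unit, PCond_one_add_NN _ n k⟩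
  let B : P p m n := ⟨((PCond_one_sub_NN _ n k).isUnit hm0).unit, PCond_one_sub_NN _ n k⟩
  let C : P p m n := ⟨((PCond_one_add_PiM p n k hk2).isUnit hm0).unit,
    PCond_one_add_PiM p n k hk2⟩
  let D : P p m n := ⟨((PCond_one_sub_PiM p n k hk2).isUnit hm0).unit,
    PCond_one_sub_PiM p n k hk2⟩
  let f : P p m n →* GL (Fin n) (ZMod (p ^ 4)) :=
    (Matrix.GeneralLinearGroup.map (ZMod.castHom (pow_dvd_pow p hm) (ZMod (p ^ 4)))).comp
      (P p m n).subtype
  have hA : f A = pp (ZMod (p ^ 4)) hk hk0 := by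
    apply Units.ext
    rw [pp_val]
    exact map_NN (ZMod.castHom (pow_dvd_pow p hm) (ZMod (p ^ 4))) n k
  have hB : f B = mm (ZMod (p ^ 4)) hk hk0 := by
    apply Units.ext
    rw [mm_val]
    exact map_one_sub_NN (ZMod.castHom (pow_dvd_pow p hm) (ZMod (p ^ 4))) n k
  have hC : f C = Units.map (evM (n := n) ((p : ℕ) : ZMod (p ^ 4)) (q_pow p)).toMonoidHom
      (uP (ZMod (p ^ 4)) hk hk0) := by
    apply Units.ext
    change _ = evM ((p : ℕ) : ZMod (p ^ 4)) (q_pow p) (uP (ZMod (p ^ 4)) hk hk0).val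
    rw [evM_uP, PT_eq_PiM]
    exact map_PiM (ZMod.castHom (pow_dvd_pow p hm) (ZMod (p ^ 4))) p n k
  have hD : f D = Units.map (evM (n := n) ((p : ℕ) : ZMod (p ^ 4)) (q_pow p)).toMonoidHom
      (uM (ZMod (p ^ 4)) hk hk0) := by
    apply Units.ext
    change _ = evM ((p : ℕ) : ZMod (p ^ 4)) (q_pow p) (uM (ZMod (p ^ 4)) hk hk0).val
    rw [evM_uM, PT_eq_PiM]
    exact map_one_sub_PiM (ZMod.castHom (pow_dvd_pow p hm) (ZMod (p ^ 4))) p n k
  have h1 := (h (A * B⁻¹) ((A * B⁻¹)⁻¹ * (C * D⁻¹))).map f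
  have hx : f (A * B⁻¹) = xx (ZMod (p ^ 4)) hk hk0 := by
    rw [map_mul, map_inv, hA, hB, xx_eq]
  have hz : f (C * D⁻¹) = zz ((p : ℕ) : ZMod (p ^ 4)) hk hk0 (q_pow p) := by
    rw [map_mul, map_inv, hC, hD, zz, zt, map_mul, map_inv]
  have hy : f ((A * B⁻¹)⁻¹ * (C * D⁻¹)) =
      yy ((p : ℕ) : ZMod (p ^ 4)) hk hk0 (q_pow p) := by
    rw [map_mul, map_inv, hx, hz, yy]
  rw [hx, hy] at h1
  exact pair_core hk hk0 hodd h3 h4 h1

/-- **Irregularity for `m ≥ 4`.** -/
theorem not_regular_four (p m n : ℕ) [hp : Fact p.Prime] (hm : 4 ≤ m) (hn : 2 ≤ n)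
    (he : Even n → p + 5 ≠ 4 * n ∧ p + 3 ≠ 4 * n) (hpn : p + 2 ≤ 4 * n) :
    ¬ IsRegular p (P p m n) := by
  by_cases h1 : p + 2 ≤ 3 * n
  · exact not_regular_of_le p m n (by omega) h1
  · have hpodd : Odd p := by
      rcases hp.out.eq_two_or_odd' with h2 | h2
      · omega
      · exact h2
    obtain ⟨s, hs⟩ := hpodd
    rcases Nat.even_or_odd n with hev | hodd
    · obtain ⟨h5, h6⟩ := he hev
      obtain ⟨r, hr⟩ := hev
      have hkodd : Odd (n - 1) := ⟨r - 1, by omega⟩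
      exact not_regular_block p m n (n - 1) hm (by omega) hkodd (by omega) (by omega)
    · obtain ⟨r, hr⟩ := hodd
      have h7 : p ≠ 3 * n := by
        rintro h8
        have h9 : (3 : ℕ) ∣ p := ⟨n, h8⟩
        rcases (Nat.dvd_prime hp.out).1 h9 with h10 | h10
        · omega
        · omega
      exact not_regular_block p m n n hm le_rfl ⟨r, hr⟩ (by omega) (by omega)

end Pool.Agent.Helper24Reg4
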